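import Mathlib

/-! Families of cochains that are cocycles in the limit. -/

set_option autoImplicit false

namespace Pool.Agent.Lib.MP_179850_al

open Filter

universe u v

variable {Q : Type u} [Group Q] {k : Type v} [CommRing k] {L : Filter ℕ}

/-- The cocycle identity for the pair `h, h'`. -/
def Coc (d : Q → Q → k) (h h' : Q) : Prop := ∀ x, d (h * h') x = d h x + d h' (x * h)

theorem Coc.one {d : Q → Q → k} (h : Coc d 1 1) : d 1 = 0 := funext fun x => by
  simpa using h x

/-- Right translation of functions. -/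
def shf (Q : Type u) [Group Q] (k : Type v) [CommRing k] :
    Q →* MulAut (Q → Multiplicative k) where
  toFun h := MulEquiv.arrowCongr (Equiv.mulRight h).symm (MulEquiv.refl _)
  map_one' := by ext; simp
  map_mul' _ _ := by ext; simp [mul_assoc]

theorem coc_of_fp [L.NeBot] (c : ℕ → Q → Q → k) (hc : ∀ h h', ∀ᶠ p in L, Coc (c p) h h')
    (hQ : Group.IsFinitelyPresented Q) (T : Finset Q) :
    ∃ᶠ p in L, ∃ d : Q → Q → k, (∀ h h', Coc d h h') ∧ ∀ h ∈ T, d h = c p h := by
  obtain ⟨m, f, hf, S, hS, hk⟩ := hQ.out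
  let s : ℕ → Q → (Q → Multiplicative k) ⋊[shf Q k] Q := fun p h =>
    ⟨fun x => .ofAdd (c p h x), h⟩
  have s1 : ∀ᶠ p in L, s p 1 = 1 := (hc 1 1).mono fun p hp =>
    SemidirectProduct.ext (funext fun x => by simp [s, hp.one]) rfl
  have s2 : ∀ h h', ∀ᶠ p in L, s p (h * h') = s p h * s p h' := fun h h' =>
    (hc h h').mono fun p hp =>
      SemidirectProduct.ext (funext fun x => congrArg Multiplicative.ofAdd (hp x)) rfl
  have key : ∀ u, ∀ᶠ p in L, FreeGroup.lift (fun i => s p (f (.of i))) u = s p (f u) := by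
    intro u
    induction u using FreeGroup.induction_on with
    | C1 => exact s1.mono fun p hp => by rw [map_one, map_one, hp]
    | of i => exact .of_forall fun p => FreeGroup.lift_apply_of
    | inv_of i _ =>
      filter_upwards [s1, s2 (f (.of i))⁻¹ (f (.of i))] with p h1 h2
      rw [inv_mul_cancel, h1] at h2
      rw [map_inv, map_inv, FreeGroup.lift_apply_of]
      exact (eq_inv_of_mul_eq_one_left h2.symm).symm
    | mul u v hu hv =>
      filter_upwards [hu, hv, s2 (f u) (f v)] with p h1 h2 h3
      rw [map_mul, map_mul, h1, h2, h3]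
  refine Eventually.frequently ?_
  filter_upwards [s1, (eventually_all_finite hS).2 fun u _ => key u,
    (eventually_all_finset T).2 fun h _ => key (Function.surjInv hf h)] with p h0 h1 h2
  let Φ := FreeGroup.lift fun i => s p (f (.of i))
  have hΦ : f.ker ≤ Φ.ker := by
    rw [← hk]
    refine Subgroup.normalClosure_le_normal fun u hu => ?_
    have h3 : f u = 1 := (hk ▸ Subgroup.subset_normalClosure hu : u ∈ f.ker)
    rw [SetLike.mem_coe, MonoidHom.mem_ker, h1 u hu, h3, h0]
  let Ψ := f.liftOfRightInverse _ (Function.rightInverse_surjInv hf) ⟨Φ, hΦ⟩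
  have hΨ : ∀ u, Ψ (f u) = Φ u := MonoidHom.liftOfRightInverse_comp_apply _ _ _ _
  have hr : ∀ h, (Ψ h).right = h := fun h => by
    obtain ⟨u, rfl⟩ := hf h
    have : SemidirectProduct.rightHom.comp Φ = f := FreeGroup.ext_hom _ _ fun i => by simp [Φ, s]
    rw [hΨ]
    exact DFunLike.congr_fun this u
  refine ⟨fun h x => ((Ψ h).left x).toAdd, fun h h' x => ?_, fun h hh => ?_⟩
  · beta_reduce
    rw [map_mul, SemidirectProduct.mul_left, hr]
    rfl
  have := h2 h hh
  rw [← hΨ, Function.surjInv_eq hf] at this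
  exact funext fun x => by simp [this, s]

/-- Right translation of functions, as a representation. -/
def rt (Q : Type u) [Group Q] (k : Type v) [CommRing k] : Representation k Q (Q → k) where
  toFun h := LinearMap.funLeft k k (· * h)
  map_one' := by ext; simp
  map_mul' _ _ := by ext; simp [LinearMap.funLeft, mul_assoc]

theorem coc_of_fp2 [L.NeBot] (c : ℕ → Q → Q → k) (hc : ∀ h h', ∀ᶠ p in L, Coc (c p) h h')
    (hQ : Module.FinitePresentation (MonoidAlgebra k Q)
      (RingHom.ker (MonoidAlgebra.lift k k Q 1))) (T : Finset Q) :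
    ∃ᶠ p in L, ∃ d : Q → Q → k, (∀ h h', Coc d h h') ∧ ∀ h ∈ T, d h = c p h := by
  classical
  obtain ⟨n, m, f, g, hf, hg⟩ := Module.FinitePresentation.exists_fin' (MonoidAlgebra k Q)
    (RingHom.ker (MonoidAlgebra.lift k k Q 1))
  let ℓ : ℕ → MonoidAlgebra k Q →ₗ[k] Q → k := fun p =>
    Finsupp.linearCombination k (c p) ∘ₗ (MonoidAlgebra.coeffLinearEquiv k).toLinearMap
  have ℓ1 : ∀ p h a, ℓ p (.single h a) = a • c p h := fun p h a => by simp [ℓ]
  have k1 : ∀ z v, ∀ᶠ p in L, ℓ p (z * v) =
      MonoidAlgebra.lift k k Q 1 v • ℓ p z + (rt Q k).asAlgebraHom z (ℓ p v) := by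
    intro z v
    induction z using MonoidAlgebra.induction_linear with
    | zero => simp
    | add z z' h h' =>
      filter_upwards [h, h'] with p h h'
      simp only [add_mul, map_add, h, h', smul_add, LinearMap.add_apply]
      abel
    | single h a =>
      induction v using MonoidAlgebra.induction_linear with
      | zero => simp
      | add v v' e e' =>
        filter_upwards [e, e'] with p e e'
        simp only [mul_add, map_add, e, e', add_smul]
        abel
      | single h' b =>
        filter_upwards [hc h h'] with p e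
        ext x
        simp [MonoidAlgebra.single_mul_single, ℓ1, e x, rt]
        ring
  let Φ : ℕ → (Fin n → MonoidAlgebra k Q) →+ Q → k := fun p =>
    { toFun := fun r => ∑ i, (rt Q k).asAlgebraHom (r i) (ℓ p (f (Pi.single i 1)))
      map_zero' := by simp
      map_add' := fun r r' => by simp [Finset.sum_add_distrib] }
  have Φ1 : ∀ p z r, Φ p (z • r) = (rt Q k).asAlgebraHom z (Φ p r) := fun p z r => by
    simp [Φ, map_sum]
  have k2 : ∀ r, ∀ᶠ p in L, Φ p r = ℓ p (f r) := fun r => by
    filter_upwards [eventually_all.2 fun i => k1 (r i) (f (Pi.single i 1))] with p e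
    conv_rhs => rw [pi_eq_sum_univ' r]
    rw [map_sum, Submodule.coe_sum, map_sum]
    simp only [map_smul, SetLike.val_smul, smul_eq_mul, e]
    change ∑ i, (rt Q k).asAlgebraHom (r i) (ℓ p (f (Pi.single i 1))) = _
    exact Finset.sum_congr rfl fun i _ => by
      rw [RingHom.mem_ker.1 (f (Pi.single i 1)).2, zero_smul, zero_add]
  have mem : ∀ h : Q, MonoidAlgebra.single h 1 - 1 ∈ RingHom.ker (MonoidAlgebra.lift k k Q 1) :=
    fun h => by simp [RingHom.mem_ker]
  choose r hr using fun h => hf ⟨_, mem h⟩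
  refine Eventually.frequently ?_
  filter_upwards [hc 1 1, eventually_all.2 fun j => k2 (g (Pi.single j 1)),
    (eventually_all_finset T).2 fun h _ => k2 (r h)] with p h0 h1 h2
  have k3 : ∀ y, f y = 0 → Φ p y = 0 := fun y hy => by
    obtain ⟨t, rfl⟩ := (hg y).1 hy
    rw [pi_eq_sum_univ' t, map_sum, map_sum]
    refine Finset.sum_eq_zero fun j _ => ?_
    rw [map_smul, Φ1, h1, hg.apply_apply_eq_zero, ZeroMemClass.coe_zero, map_zero, map_zero]
  refine ⟨fun h => Φ p (r h), fun h h' x => ?_, fun h hh => ?_⟩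
  · have := k3 (r (h * h') - (r h + MonoidAlgebra.single h (1 : k) • r h')) (Subtype.ext (by
      simp [hr, mul_sub, MonoidAlgebra.single_mul_single]))
    rw [map_sub, map_add, Φ1, sub_eq_zero] at this
    simp [this, rt]
  · beta_reduce
    rw [h2 h hh, hr, map_sub, MonoidAlgebra.one_def, ℓ1, ℓ1, h0.one]
    simp

end Pool.Agent.Lib.MP_179850_al
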