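import Pool.Agent.Lib.MP_179850_al.Magnus

/-! The projection of the automorphism group to the link of a non-free vertex, and the
collinearity of bounded configurations for almost all primes. -/

set_option autoImplicit false

namespace Pool.Agent.Lib.MP_179850_al

open Finset Filter

/-- The automorphism group. -/
abbrev G : Type := MulAut M

/-- The action on the free module. -/
noncomputable def act (g : G) (u : V) : V := rho (g : M →* M) u

theorem act_mul (g h : G) (u : V) : act (g * h) u = act g (act h u) :=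
  rho_comp (g : M →* M) (h : M →* M) u

theorem act_one (u : V) : act 1 u = u := rho_id u

theorem act_inv (g : G) (u : V) : act g (act g⁻¹ u) = u := by
  rw [← act_mul, mul_inv_cancel, act_one]

theorem ext_act {g h : G} (e : ∀ u, act g u = act h u) : g = h :=
  MulEquiv.toMonoidHom_injective (ext_rho e)

theorem th_inv (g : G) (a : A) : th (g : M →* M) (th ((g⁻¹ : G) : M →* M) a) = a := by
  rw [← th_comp]
  have : (g : M →* M).comp ((g⁻¹ : G) : M →* M) = MonoidHom.id M :=
    MonoidHom.ext fun m => g.apply_symm_apply m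
  rw [this, th_id]

theorem st_inv (g : G) (f : R) : st (g : M →* M) (st ((g⁻¹ : G) : M →* M) f) = f :=
  R.ind (P := fun f => st (g : M →* M) (st ((g⁻¹ : G) : M →* M) f) = f) (by simp)
    (fun x y hx hy => by simp only [map_add, hx, hy])
    (fun a c => by simp only [st_single, th_inv]) f

theorem Fil.st {χ ψ : A →+ ℤ} {φ : M →* M} (h : ∀ a, ψ (th φ a) = χ a) {j : ℤ} {f : R}
    (hf : Fil χ j f) : Fil ψ j (st φ f) :=
  Fil.ind (P := fun f => Fil ψ j (MP_179850_al.st φ f)) hf (by rw [map_zero]; exact Fil.zero)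
    (fun x y hx hy => by rw [map_add]; exact hx.add hy)
    fun a c ha => by rw [st_single]; exact Fil.single _ (by rwa [h])

theorem pr_st {χ ψ : A →+ ℤ} {φ : M →* M} (h : ∀ a, ψ (th φ a) = χ a) (j : ℤ) (f : R) :
    pr ψ j (st φ f) = st φ (pr χ j f) :=
  R.ind (P := fun f => pr ψ j (st φ f) = st φ (pr χ j f)) (by simp)
    (fun x y hx hy => by simp only [map_add, hx, hy])
    (fun a c => by
      rw [st_single, pr_single, pr_single, h]
      split_ifs
      · rw [st_single]
      · rw [map_zero]) f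

theorem pr_mono_mul {ψ : A →+ ℤ} {a : A} (h : ψ a = 0) (j : ℤ) (f : R) :
    pr ψ j (mono a * f) = mono a * pr ψ j f :=
  R.ind (P := fun f => pr ψ j (mono a * f) = mono a * pr ψ j f) (by simp)
    (fun x y hx hy => by simp only [mul_add, map_add, hx, hy])
    (fun b c => by
      rw [mono, AddMonoidAlgebra.single_mul_single, pr_single, pr_single, map_add, h, zero_add]
      split_ifs
      · rw [AddMonoidAlgebra.single_mul_single]
      · rw [mul_zero]) f

theorem dvd_of_mul {p : ℕ} (hp : p.Prime) {a : A} (ha : a ≠ 0) (f : R)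
    (h : ∀ b, (p : ℤ) ∣ ((mono a - 1) * f).coeff b) (b : A) : (p : ℤ) ∣ f.coeff b := by
  have := Fact.mk hp
  let π := AddMonoidAlgebra.mapRingHom A (Int.castRingHom (ZMod p))
  have h1 : ∀ g : R, π g = 0 ↔ ∀ b, (p : ℤ) ∣ g.coeff b := fun g => by
    rw [← AddMonoidAlgebra.coeff_inj, Finsupp.ext_iff]
    simp [π, ZMod.intCast_zmod_eq_zero_iff_dvd]
  have h2 := (h1 _).2 h
  rw [map_mul, mul_eq_zero] at h2
  refine (h1 f).1 (h2.resolve_left fun e => ha ?_) b
  rw [map_sub, map_one, sub_eq_zero, mono, AddMonoidAlgebra.mapRingHom_single, map_one,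
    AddMonoidAlgebra.one_def] at e
  exact (AddMonoidAlgebra.single_left_inj one_ne_zero).1 e

/-- The degree in the last variable. -/
def chi : A →+ ℤ where
  toFun a := a 3
  map_zero' := rfl
  map_add' _ _ := rfl

/-- The last variable. -/
noncomputable def tt : R := mono (Pi.single 3 1)

/-- The element `f` is integral at `t = 0` with value `f0`. -/
def Ev (f f0 : R) : Prop := Fil chi 0 f ∧ pr chi 0 f = f0

theorem Ev.add {f f0 g g0 : R} (h : Ev f f0) (h' : Ev g g0) : Ev (f + g) (f0 + g0) :=
  ⟨h.1.add h'.1, by rw [map_add, h.2, h'.2]⟩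

theorem Ev.neg {f f0 : R} (h : Ev f f0) : Ev (-f) (-f0) := ⟨h.1.neg, by rw [map_neg, h.2]⟩

theorem Ev.mul {f f0 g g0 : R} (h : Ev f f0) (h' : Ev g g0) : Ev (f * g) (f0 * g0) :=
  ⟨by simpa using h.1.mul h'.1, by rw [← h.2, ← h'.2, ← pr_mul h.1 h'.1, add_zero]⟩

theorem Ev.of_eq {f f0 g g0 : R} (h : Ev f f0) (e : g = f) (e0 : g0 = f0) : Ev g g0 := by
  rwa [e, e0]

theorem ev_zero : Ev 0 0 := ⟨Fil.zero, map_zero _⟩

theorem ev_single {a : A} (h : a 3 = 0) (c : ℤ) : Ev (.single a c) (.single a c) :=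
  ⟨Fil.single _ h.ge, by rw [pr_single]; exact if_pos h⟩

theorem ev_nat (n : ℕ) : Ev n n := ev_single rfl _

theorem ev_one : Ev 1 1 := ev_single rfl _

theorem ev_tt : Ev tt 0 :=
  ⟨Fil.single _ (by simp [chi]), by rw [tt, mono, pr_single, if_neg (by simp [chi])]⟩

theorem eps_eq : eps = 1 - tt := by simp [eps, sg, tt]

theorem ev_eps : Ev eps 1 :=
  (ev_one.add ev_tt.neg).of_eq (by rw [eps_eq]; ring) (by ring)

theorem ev_b : Ev (sg 0) (sg 0) :=
  ((ev_single (a := Pi.single 0 1) (by simp) 1).add ev_one.neg).of_eq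
    (sub_eq_add_neg _ _) (sub_eq_add_neg _ _)

theorem sg_ne (i : Fin 4) : sg i ≠ 0 := fun h => by
  have := congrFun (mono_inj ((sub_eq_zero.1 h).trans mono_zero.symm)) i
  simp at this

theorem bd_eta (l : Fin 4) : bd (eta l) = 0 := by
  rw [eta, map_add, map_smul, map_smul, bd_single, bd_single, eps, smul_eq_mul, smul_eq_mul]
  ring

theorem ker_bd (u : V) (hu : u ∈ LinearMap.ker bd) (h : ∀ i : Fin 3, u i.castSucc = 0) :
    u = 0 := by
  have h0 : u 0 = 0 := h 0
  have h1 : u 1 = 0 := h 1
  have h2 : u 2 = 0 := h 2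
  have h3 : ∑ i, u i * sg i = 0 := hu
  rw [Fin.sum_univ_four, h0, h1, h2] at h3
  have h4 : u 3 = 0 := by simpa [sg_ne] using h3
  ext1 i
  fin_cases i
  exacts [h0, h1, h2, h4]

theorem act_mem (g : G) {u : V} (hu : u ∈ LinearMap.ker bd) : act g u ∈ LinearMap.ker bd := by
  rw [LinearMap.mem_ker] at hu ⊢
  rw [act, bd_rho, hu, map_zero]

/-- Coordinates adapted to the non-free vertex attached to the ideal `(p, x 0 - 1)`. -/
noncomputable def co (p : ℕ) (u : V) : Fin 3 → R := ![sg 0 * u 0 - p * u 1, tt * u 1, u 2]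

theorem co_ne (p : ℕ) (g : G) : co p (act g (eta 0)) ≠ 0 := by
  intro h
  have h0 : sg 0 * act g (eta 0) 0 - p * act g (eta 0) 1 = 0 := congrFun h 0
  have h1 : tt * act g (eta 0) 1 = 0 := congrFun h 1
  have h2 : act g (eta 0) 2 = 0 := congrFun h 2
  have ht : tt ≠ 0 := by simp [tt, mono]
  have h3 := (mul_eq_zero.1 h1).resolve_left ht
  rw [h3, mul_zero, sub_zero] at h0
  have h4 := ker_bd _ (act_mem g (bd_eta 0)) fun i => by
    fin_cases i
    exacts [(mul_eq_zero.1 h0).resolve_left (sg_ne 0), h3, h2]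
  have h5 := act_inv g⁻¹ (eta 0)
  rw [inv_inv, h4, act, map_zero] at h5
  have h6 := congrFun h5 0
  simp [eta, eps, sg_ne] at h6

theorem exists_w (p : ℕ) (g : G) : ∃ j, (∀ l, Fil chi j (co p (act g (eta 0)) l)) ∧
    ∃ l, pr chi j (co p (act g (eta 0)) l) ≠ 0 := by
  simpa using exists_ord chi (fun _ => 0) _ (co_ne p g)

/-- The order of vanishing. -/
noncomputable def ord (p : ℕ) (g : G) : ℤ := (exists_w p g).choose

/-- The point of the projective plane attached to `g`. -/
noncomputable def w (p : ℕ) (g : G) : Fin 3 → R :=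
  fun l => pr chi (ord p g) (co p (act g (eta 0)) l)

theorem w_ne (p : ℕ) (g : G) : w p g ≠ 0 := Function.ne_iff.2 (exists_w p g).choose_spec.2

theorem w_eq (p : ℕ) (g : G) (v : Fin 3 → R) (hv : v ≠ 0)
    (h : ∀ l, Ev (co p (act g (eta 0)) l) (v l)) : w p g = v := by
  obtain ⟨h1, l, h2⟩ := (exists_w p g).choose_spec
  obtain ⟨l', h3⟩ := Function.ne_iff.1 hv
  have h4 : ord p g = 0 := by
    rcases lt_trichotomy (ord p g) 0 with e | e | e
    · exact absurd ((h l).1.pr_eq_zero e) h2
    · exact e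
    · exact absurd ((h l').2.symm.trans ((h1 l').pr_eq_zero e)) h3
  ext1 l
  rw [w, h4, (h l).2]

theorem w_stab (p : ℕ) (g : G) {h : G} (e : act h (eta 0) = eta 0) : w p (g * h) = w p g := by
  have h1 : act (g * h) (eta 0) = act g (eta 0) := by rw [act_mul, e]
  have h2 : ord p (g * h) = ord p g := by simp only [ord, h1]
  ext1 l
  rw [w, w, h1, h2]

theorem collinear (h : Fin 3 → G) : ∀ᶠ p : ℕ in cofinite, p.Prime → ∀ g : G,
    (Matrix.of fun i l => w p (g * h i) l).det = 0 := by
  filter_upwards [key_lemma (LinearMap.ker bd) ker_bd (fun i => act (h i) (eta 0))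
    fun i => act_mem _ (bd_eta 0)] with p key hp g
  by_contra hdet
  let s : R →+* R := st ((g⁻¹ : G) : M →* M)
  have hs : ∀ f, st (g : M →* M) (s f) = f := st_inv g
  have hs' : ∀ f, s (st (g : M →* M) f) = f := fun f => by simpa using st_inv g⁻¹ f
  let ψ : A →+ ℤ := chi.comp (th (g : M →* M))
  have hψ : ∀ a, ψ (th ((g⁻¹ : G) : M →* M) a) = chi a := fun a => congrArg chi (th_inv g a)
  let c : V →ₗ[R] (Fin 3 → R) :=
    { toFun := fun u l => s (co p (act g u) l)
      map_add' := fun u v => by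
        ext1 l
        rw [Pi.add_apply, ← map_add, act, map_add]
        congr 1
        fin_cases l <;> simp [co, act] <;> ring
      map_smul' := fun r u => by
        ext1 l
        rw [RingHom.id_apply, Pi.smul_apply, smul_eq_mul, ← hs' r, ← map_mul, hs', act, rho_smul]
        congr 1
        fin_cases l <;> simp [co, act] <;> ring }
  have hin : ∀ u ∈ LinearMap.ker bd, ∀ v : Fin 3 → R, (∀ l, Ev (co p u l) (v l)) →
      In0 (LinearMap.ker bd) ψ c fun l => s (v l) := fun u hu v hv =>
    ⟨act g⁻¹ u, act_mem _ hu, fun l => by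
      change Fil ψ 0 (s (co p (act g (act g⁻¹ u)) l))
      rw [act_inv]
      exact (hv l).1.st hψ, fun l => by
      change pr ψ 0 (s (co p (act g (act g⁻¹ u)) l)) = _
      rw [act_inv, pr_st hψ, (hv l).2]⟩
  obtain ⟨u, -, -, hu⟩ := key hp ψ c (fun i => ord p (g * h i))
    (fun i l => by
      have : Fil ψ (ord p (g * h i)) (s (co p (act (g * h i) (eta 0)) l)) :=
        ((exists_w p (g * h i)).choose_spec.1 l).st hψ
      rwa [act_mul] at this)
    (fun e => hdet (by
      have e1 : (Matrix.of fun i l => pr ψ (ord p (g * h i)) (c (act (h i) (eta 0)) l)) =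
          s.mapMatrix (Matrix.of fun i l => w p (g * h i) l) := by
        ext1 i l
        change pr ψ _ (s (co p (act g (act (h i) (eta 0))) l)) = s (w p (g * h i) l)
        rw [pr_st hψ, w, act_mul]
      rw [e1, ← RingHom.map_det] at e
      rw [← hs (Matrix.of fun i l => w p (g * h i) l).det, e, map_zero]))
    ![1, 0, 0] (s (sg 0))
    (by
      rw [sg, map_sub, map_one, st_mono]
      refine dvd_of_mul hp fun e => ?_
      have := th_inv g (Pi.single 0 1)
      rw [e, map_zero] at this
      simpa using congrFun this 0)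
    (by
      have := hin (-eta 1) (neg_mem (bd_eta 1)) ![p, 0, 0] fun l => by
        fin_cases l
        · exact ((ev_nat p).mul ev_eps).of_eq (by simp [co, eta]) (by simp)
        · exact (ev_tt.mul ev_eps).neg.of_eq (by simp [co, eta]) (by simp)
        · exact ev_zero.of_eq (by simp [co, eta]) (by simp)
      refine (congrArg _ (funext fun l => ?_)).mp this
      fin_cases l <;> simp)
    (by
      have := hin (eta 0) (bd_eta 0) ![sg 0, 0, 0] fun l => by
        fin_cases l
        · exact (ev_b.mul ev_eps).of_eq (by simp [co, eta]) (by simp)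
        · exact ev_zero.of_eq (by simp [co, eta]) (by simp)
        · exact ev_zero.of_eq (by simp [co, eta]) (by simp)
      refine (congrArg _ (funext fun l => ?_)).mp this
      fin_cases l <;> simp)
  have h1 : pr ψ 0 (s (sg 0 * act g u 0 - p * act g u 1)) = 1 := hu 0
  rw [pr_st hψ] at h1
  have h2 := hs (pr chi 0 (sg 0 * act g u 0 - p * act g u 1))
  rw [h1, map_one, map_sub, ← nsmul_eq_mul, map_nsmul, sg, sub_mul, one_mul, map_sub,
    pr_mono_mul (by simp [chi])] at h2
  have := Fact.mk hp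
  have h3 := congrArg (AddMonoidAlgebra.lift ℤ (ZMod p) A 1) h2
  simp [mono] at h3

end Pool.Agent.Lib.MP_179850_al
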