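import Pool.Agent.Lib.MP_179850_al.UGB

/-! Weight filtrations on the Laurent ring in four variables and the key saturation lemma. -/

set_option autoImplicit false

namespace Pool.Agent.Lib.MP_179850_al

open Finset Filter

/-- The Laurent polynomial ring in four variables over the integers. -/
abbrev R : Type := AddMonoidAlgebra ℤ A

/-- All monomials of `f` have weight at least `j`. -/
def Fil (ψ : A →+ ℤ) (j : ℤ) (f : R) : Prop := ∀ a, f.coeff a ≠ 0 → j ≤ ψ a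

/-- The homogeneous component of weight `j`. -/
noncomputable def pr (ψ : A →+ ℤ) (j : ℤ) : R →+ R where
  toFun f := .ofCoeff (f.coeff.filter fun a => ψ a = j)
  map_zero' := by ext; simp [Finsupp.filter_apply]
  map_add' f g := by ext; simp [Finsupp.filter_add]

variable {ψ : A →+ ℤ} {j k : ℤ} {f g : R}

theorem coeff_pr (ψ : A →+ ℤ) (j : ℤ) (f : R) (a : A) :
    (pr ψ j f).coeff a = if ψ a = j then f.coeff a else 0 := by
  simp [pr, Finsupp.filter_apply]

theorem Fil.zero : Fil ψ j 0 := fun a h => by simp at h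

theorem Fil.add (hf : Fil ψ j f) (hg : Fil ψ j g) : Fil ψ j (f + g) := fun a h => by
  by_cases e : f.coeff a = 0
  · exact hg a fun e' => h (by simp [e, e'])
  · exact hf a e

theorem Fil.neg (hf : Fil ψ j f) : Fil ψ j (-f) := fun a h => hf a (by simpa using h)

theorem Fil.sub (hf : Fil ψ j f) (hg : Fil ψ j g) : Fil ψ j (f - g) := by
  rw [sub_eq_add_neg]; exact hf.add hg.neg

theorem Fil.mono (hf : Fil ψ j f) (h : k ≤ j) : Fil ψ k f := fun a e => h.trans (hf a e)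

theorem Fil.sum {ι : Type} (s : Finset ι) (F : ι → R) (h : ∀ i ∈ s, Fil ψ j (F i)) :
    Fil ψ j (∑ i ∈ s, F i) :=
  sum_induction F (Fil ψ j) (fun _ _ => Fil.add) Fil.zero h

theorem Fil.single {a : A} (c : ℤ) (h : j ≤ ψ a) : Fil ψ j (.single a c) := fun b e => by
  rw [AddMonoidAlgebra.coeff_single, Finsupp.single_apply] at e
  split_ifs at e with h1
  · rwa [← h1]
  · exact absurd rfl e

theorem pr_single (a : A) (c : ℤ) :
    pr ψ j (.single a c) = if ψ a = j then .single a c else 0 := by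
  ext b
  rw [coeff_pr]
  by_cases e : a = b
  · subst e; split_ifs <;> simp
  · split_ifs <;> simp [e]

theorem Fil.ind {P : R → Prop} (hf : Fil ψ j f) (h0 : P 0) (ha : ∀ x y, P x → P y → P (x + y))
    (hs : ∀ a c, j ≤ ψ a → P (.single a c)) : P f := by
  rw [← AddMonoidAlgebra.sum_coeff_single f, Finsupp.sum]
  exact sum_induction _ P ha h0 fun a h => hs a _ (hf a (Finsupp.mem_support_iff.1 h))

theorem mul_aux0 {a b : A} (c d : ℤ) (ha : j ≤ ψ a) (hb : k ≤ ψ b) :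
    Fil ψ (j + k) (.single a c * .single b d) ∧ pr ψ (j + k) (.single a c * .single b d) =
      pr ψ j (.single a c) * pr ψ k (.single b d) := by
  rw [AddMonoidAlgebra.single_mul_single]
  refine ⟨Fil.single _ (by rw [map_add]; omega), ?_⟩
  rw [pr_single, pr_single, pr_single, map_add]
  by_cases h1 : ψ a = j
  · by_cases h2 : ψ b = k
    · rw [if_pos (by omega), if_pos h1, if_pos h2, AddMonoidAlgebra.single_mul_single]
    · rw [if_neg (by omega), if_neg h2, mul_zero]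
  · rw [if_neg (by omega), if_neg h1, zero_mul]

theorem mul_aux1 (x : R) (hx : ∀ b d, k ≤ ψ b → Fil ψ (j + k) (x * .single b d) ∧
      pr ψ (j + k) (x * .single b d) = pr ψ j x * pr ψ k (.single b d)) (hg : Fil ψ k g) :
    Fil ψ (j + k) (x * g) ∧ pr ψ (j + k) (x * g) = pr ψ j x * pr ψ k g := by
  refine Fil.ind (P := fun g => Fil ψ (j + k) (x * g) ∧
    pr ψ (j + k) (x * g) = pr ψ j x * pr ψ k g) hg ?_ (fun x y hx hy => ?_) hx
  · rw [mul_zero, map_zero, map_zero, mul_zero]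
    exact ⟨Fil.zero, rfl⟩
  · rw [mul_add, map_add, map_add, mul_add, hx.2, hy.2]
    exact ⟨hx.1.add hy.1, rfl⟩

theorem Fil.mul_aux (hf : Fil ψ j f) (hg : Fil ψ k g) :
    Fil ψ (j + k) (f * g) ∧ pr ψ (j + k) (f * g) = pr ψ j f * pr ψ k g := by
  refine Fil.ind (P := fun f => Fil ψ (j + k) (f * g) ∧
    pr ψ (j + k) (f * g) = pr ψ j f * pr ψ k g) hf ?_ (fun x y hx hy => ?_)
    fun a c ha => mul_aux1 _ (fun b d hb => mul_aux0 c d ha hb) hg
  · rw [zero_mul, map_zero, map_zero, zero_mul]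
    exact ⟨Fil.zero, rfl⟩
  · rw [add_mul, map_add, map_add, add_mul, hx.2, hy.2]
    exact ⟨hx.1.add hy.1, rfl⟩

theorem Fil.mul (hf : Fil ψ j f) (hg : Fil ψ k g) : Fil ψ (j + k) (f * g) := (hf.mul_aux hg).1

theorem pr_mul (hf : Fil ψ j f) (hg : Fil ψ k g) :
    pr ψ (j + k) (f * g) = pr ψ j f * pr ψ k g := (hf.mul_aux hg).2

theorem Fil.pr_eq_zero (hf : Fil ψ j f) (h : k < j) : pr ψ k f = 0 := by
  ext a
  rw [coeff_pr]
  split_ifs with e
  · by_contra e'
    have := hf a e'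
    omega
  · rfl

theorem exists_ord {ι : Type} [Fintype ι] (ψ : A →+ ℤ) (m : ι → ℤ) (r : ι → R) (h : r ≠ 0) :
    ∃ j, (∀ i, Fil ψ (j - m i) (r i)) ∧ ∃ i, pr ψ (j - m i) (r i) ≠ 0 := by
  classical
  obtain ⟨ν, h1, h2⟩ := exists_min_image (univ.sigma fun i => (r i).coeff.support)
    (fun ν => ψ ν.2 + m ν.1) (by
      obtain ⟨i, hi⟩ := Function.ne_iff.1 h
      obtain ⟨a, ha⟩ := Finsupp.support_nonempty_iff.2
        (mt AddMonoidAlgebra.coeff_eq_zero.1 hi)
      exact ⟨⟨i, a⟩, mem_sigma.2 ⟨mem_univ _, ha⟩⟩)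
  refine ⟨ψ ν.2 + m ν.1, fun i a ha => ?_, ν.1, fun e => ?_⟩
  · have := h2 ⟨i, a⟩ (mem_sigma.2 ⟨mem_univ _, Finsupp.mem_support_iff.2 ha⟩)
    simp only at this
    omega
  · have h3 := coeff_pr ψ (ψ ν.2 + m ν.1 - m ν.1) (r ν.1) ν.2
    rw [e, if_pos (by ring)] at h3
    exact Finsupp.mem_support_iff.1 (mem_sigma.1 h1).2 h3.symm

theorem comb {ι κ : Type} [Fintype ι] (v : ι → κ → R) (m : ι → ℤ)
    (hv : ∀ i l, Fil ψ (m i) (v i l)) (r : ι → R) (hr : ∀ i, Fil ψ (j - m i) (r i)) (l : κ) :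
    Fil ψ j (∑ i, r i * v i l) ∧
      pr ψ j (∑ i, r i * v i l) = ∑ i, pr ψ (j - m i) (r i) * pr ψ (m i) (v i l) := by
  refine ⟨Fil.sum _ _ fun i _ => by simpa using (hr i).mul (hv i l), ?_⟩
  rw [map_sum]
  exact sum_congr rfl fun i _ => by simpa using pr_mul (hr i) (hv i l)

theorem comb_inv {ι κ : Type} [Fintype ι] (v : ι → κ → R) (m : ι → ℤ)
    (hv : ∀ i l, Fil ψ (m i) (v i l))
    (hind : ∀ s : ι → R, (∀ l, ∑ i, s i * pr ψ (m i) (v i l) = 0) → s = 0)
    (r : ι → R) (hr : ∀ l, Fil ψ j (∑ i, r i * v i l)) (i : ι) : Fil ψ (j - m i) (r i) := by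
  by_cases h0 : r = 0
  · rw [h0]; exact Fil.zero
  obtain ⟨j', h1, i', h2⟩ := exists_ord ψ m r h0
  refine (h1 i).mono ?_
  by_contra hlt
  refine h2 (congrFun (hind (fun i => pr ψ (j' - m i) (r i)) fun l => ?_) i')
  rw [← (comb v m hv r h1 l).2]
  exact (hr l).pr_eq_zero (by omega)

/-- The monomial with exponent `a`. -/
noncomputable def mono (a : A) : R := .single a 1

theorem mono_add (a b : A) : mono (a + b) = mono a * mono b := by
  simp [mono, AddMonoidAlgebra.single_mul_single]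

theorem mono_zero : mono 0 = 1 := rfl

theorem mono_inj {a b : A} (h : mono a = mono b) : a = b :=
  (AddMonoidAlgebra.single_left_inj one_ne_zero).1 h

theorem coeff_mono_mul (a b : A) (f : R) : (mono a * f).coeff (a + b) = f.coeff b := by
  simp [mono]

theorem ugb_mod (U : Submodule R (Fin 3 → R)) :
    ∀ᶠ p : ℕ in cofinite, p.Prime → ∀ (ψ : A →+ ℤ) (n : Fin 3 → ℤ), ∀ r ∈ U,
      (∀ i, Fil ψ (n i) (r i)) → (∀ i a, (p : ℤ) ∣ (pr ψ (n i) (r i)).coeff a) →
      ∃ r' ∈ U, (∀ i, Fil ψ (n i) (r' i)) ∧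
        ∀ i, (p : R) * pr ψ (n i) (r' i) = pr ψ (n i) (r i) := by
  classical
  have hex : ∀ r : Fin 3 → R, ∃ v : Om →₀ ℤ, ∀ a i, v (a, i) = (r i).coeff a := fun r =>
    ⟨Finsupp.onFinset ((univ.biUnion fun i => (r i).coeff.support) ×ˢ univ)
      (fun ν => (r ν.2).coeff ν.1) fun ν h => mem_product.2
        ⟨mem_biUnion.2 ⟨ν.2, mem_univ _, Finsupp.mem_support_iff.2 h⟩, mem_univ _⟩,
      fun _ _ => rfl⟩
  let U' : AddSubgroup (Om →₀ ℤ) :=
    { carrier := {v | ∃ r ∈ U, ∀ a i, v (a, i) = (r i).coeff a}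
      zero_mem' := ⟨0, U.zero_mem, by simp⟩
      add_mem' := by
        rintro _ _ ⟨r, hr, h⟩ ⟨s, hs, h'⟩
        exact ⟨r + s, U.add_mem hr hs, by simp [h, h']⟩
      neg_mem' := by
        rintro _ ⟨r, hr, h⟩
        exact ⟨-r, U.neg_mem hr, by simp [h]⟩ }
  filter_upwards [ugb U' (by
    rintro a u ⟨r, hr, h⟩
    obtain ⟨v, hv⟩ := hex (mono a • r)
    exact ⟨v, ⟨_, U.smul_mem _ hr, hv⟩, fun b i => by
      rw [hv, h, Pi.smul_apply, smul_eq_mul, coeff_mono_mul]⟩)] with p h hp ψ n r hr h0 hd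
  obtain ⟨v, hv⟩ := hex r
  obtain ⟨v', ⟨r', hr', hv'⟩, h1, h2⟩ := h hp ψ n v ⟨r, hr, hv⟩
    (fun ν hν => h0 ν.2 ν.1 (by rw [← hv]; exact Finsupp.mem_support_iff.1 hν))
    (fun ν hν => by
      have := hd ν.2 ν.1
      rwa [coeff_pr, if_pos hν, ← hv] at this)
  refine ⟨r', hr', fun i a ha => h1 (a, i) (Finsupp.mem_support_iff.2 (by rwa [hv'])),
    fun i => ?_⟩
  ext a
  rw [← nsmul_eq_mul, ← map_nsmul, coeff_pr, coeff_pr]
  split_ifs with e
  · have := h2 (a, i) e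
    rw [hv', hv] at this
    rw [← this, nsmul_eq_mul, AddMonoidAlgebra.natCast_def,
      AddMonoidAlgebra.coeff_single_zero_mul]
  · rfl

/-- The free module of rank four. -/
abbrev V : Type := Fin 4 → R

/-- The vector `h` is the weight zero part of `c u` for some `u` in `K` with `c u` integral. -/
def In0 (K : Submodule R V) (ψ : A →+ ℤ) (c : V →ₗ[R] (Fin 3 → R)) (h : Fin 3 → R) : Prop :=
  ∃ u ∈ K, (∀ l, Fil ψ 0 (c u l)) ∧ ∀ l, pr ψ 0 (c u l) = h l

theorem key_lemma (K : Submodule R V) (hK : ∀ u ∈ K, (∀ i : Fin 3, u i.castSucc = 0) → u = 0)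
    (z : Fin 3 → V) (hz : ∀ i, z i ∈ K) :
    ∀ᶠ p : ℕ in cofinite, p.Prime → ∀ (ψ : A →+ ℤ) (c : V →ₗ[R] (Fin 3 → R)) (m : Fin 3 → ℤ),
      (∀ i l, Fil ψ (m i) (c (z i) l)) →
      (Matrix.of fun i l => pr ψ (m i) (c (z i) l)).det ≠ 0 →
      ∀ (h : Fin 3 → R) (b : R),
        (∀ f : R, (∀ a, (p : ℤ) ∣ (b * f).coeff a) → ∀ a, (p : ℤ) ∣ f.coeff a) →
        In0 K ψ c ((p : R) • h) → In0 K ψ c (b • h) → In0 K ψ c h := by
  let Z : Matrix (Fin 3) (Fin 3) R := Matrix.of fun i l => z i l.castSucc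
  let U : Submodule R (Fin 3 → R) :=
    { carrier := {r | ∃ u ∈ K, Z.det • u = ∑ i, r i • z i}
      zero_mem' := ⟨0, K.zero_mem, by simp⟩
      add_mem' := by
        rintro r s ⟨u, hu, h⟩ ⟨v, hv, h'⟩
        exact ⟨u + v, K.add_mem hu hv, by simp [h, h', add_smul, sum_add_distrib]⟩
      smul_mem' := by
        rintro c r ⟨u, hu, h⟩
        exact ⟨c • u, K.smul_mem c hu, by
          rw [smul_comm, h, smul_sum]; simp [mul_smul]⟩ }
  have hZ : ∀ (r : Fin 3 → R) (l : Fin 3), (∑ i, r i • z i) l.castSucc = Matrix.vecMul r Z l := by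
    intro r l
    simp [Z, Matrix.vecMul, dotProduct]
  have hKz : ∀ r : Fin 3 → R, ∑ i, r i • z i ∈ K := fun r =>
    K.sum_mem fun i _ => K.smul_mem _ (hz i)
  have hU : ∀ u ∈ K, ∃ r : Fin 3 → R, Z.det • u = ∑ i, r i • z i := by
    intro u hu
    refine ⟨Matrix.vecMul (fun l => u l.castSucc) Z.adjugate, sub_eq_zero.1
      (hK _ (K.sub_mem (K.smul_mem _ hu) (hKz _)) fun l => ?_)⟩
    rw [Pi.sub_apply, hZ, Matrix.vecMul_vecMul, Matrix.adjugate_mul]
    simp [Matrix.vecMul_smul]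
  filter_upwards [ugb_mod U] with p hugb hp ψ c m hm hdet h b hb ⟨u1, hu1, f1, e1⟩ ⟨u2, hu2, f2, e2⟩
  have hind : ∀ s : Fin 3 → R, (∀ l, ∑ i, s i * pr ψ (m i) (c (z i) l) = 0) → s = 0 :=
    fun s hs => Matrix.eq_zero_of_vecMul_eq_zero hdet (funext fun l => by
      simpa [Matrix.vecMul, dotProduct] using hs l)
  have hc : ∀ (r : Fin 3 → R) (l : Fin 3), c (∑ i, r i • z i) l = ∑ i, r i * c (z i) l := by
    intro r l
    simp
  have hδ : Z.det ≠ 0 := by
    intro e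
    obtain ⟨r, hr, hr'⟩ := Matrix.exists_vecMul_eq_zero_iff.2 e
    have h1 : ∑ i, r i • z i = 0 := hK _ (hKz r) fun l => by rw [hZ, hr']; rfl
    obtain ⟨j, -, i, h3⟩ := exists_ord ψ m r hr
    exact h3 ((comb_inv (j := j + 1) (fun i l => c (z i) l) m hm hind r
      (fun l => by rw [← hc, h1, map_zero]; exact Fil.zero) i).pr_eq_zero (by omega))
  obtain ⟨e, he1, -, he2⟩ := exists_ord ψ (fun _ : Unit => 0) (fun _ => Z.det)
    (fun h => hδ (congrFun h ()))
  have he1 : Fil ψ e Z.det := by simpa using he1 ()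
  rw [sub_zero] at he2
  have step : ∀ u ∈ K, (∀ l, Fil ψ 0 (c u l)) → ∃ r ∈ U, (∀ i, Fil ψ (e - m i) (r i)) ∧
      ∀ l, ∑ i, pr ψ (e - m i) (r i) * pr ψ (m i) (c (z i) l) =
        pr ψ e Z.det * pr ψ 0 (c u l) := by
    intro u hu hf
    obtain ⟨r, hr⟩ := hU u hu
    have h1 : ∀ l, ∑ i, r i * c (z i) l = Z.det * c u l := fun l => by
      rw [← hc, ← hr, map_smul]; rfl
    have h2 := comb_inv (j := e) (fun i l => c (z i) l) m hm hind r
      (fun l => by rw [h1]; simpa using he1.mul (hf l))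
    refine ⟨r, ⟨u, hu, hr⟩, h2, fun l => ?_⟩
    rw [← (comb (fun i l => c (z i) l) m hm r h2 l).2, h1, ← pr_mul he1 (hf l), add_zero]
  obtain ⟨r1, hr1, g1, k1⟩ := step u1 hu1 f1
  obtain ⟨r2, -, -, k2⟩ := step u2 hu2 f2
  have hrel : ∀ i, b * pr ψ (e - m i) (r1 i) = (p : R) * pr ψ (e - m i) (r2 i) := by
    intro i
    refine sub_eq_zero.1 (congrFun (hind
      (fun i => b * pr ψ (e - m i) (r1 i) - (p : R) * pr ψ (e - m i) (r2 i)) fun l => ?_) i)
    have h1 := k1 l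
    have h2 := k2 l
    rw [e1] at h1
    rw [e2] at h2
    simp only [Fin.sum_univ_three, Pi.smul_apply, smul_eq_mul] at h1 h2 ⊢
    linear_combination b * h1 - (p : R) * h2
  obtain ⟨r', ⟨u', hu', hr'⟩, g', k'⟩ := hugb hp ψ (fun i => e - m i) r1 hr1 g1 fun i =>
    hb _ fun a => by
      rw [hrel, AddMonoidAlgebra.natCast_def, AddMonoidAlgebra.coeff_single_zero_mul]
      exact dvd_mul_right _ _
  have h1 : ∀ l, ∑ i, r' i * c (z i) l = Z.det * c u' l := fun l => by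
    rw [← hc, ← hr', map_smul]; rfl
  have h2 : ∀ l, Fil ψ 0 (c u' l) := fun l => by
    have := comb_inv (ψ := ψ) (j := e) (fun (_ : Unit) (_ : Unit) => Z.det) (fun _ => e)
      (fun _ _ => he1) (fun s hs => funext fun i => by
        have := hs ()
        simp only [univ_unique, sum_singleton, mul_eq_zero, he2, or_false] at this
        exact this) (fun _ => c u' l) (fun _ => by
        simp only [univ_unique, sum_singleton]
        rw [mul_comm, ← h1]
        exact (comb (fun i l => c (z i) l) m hm r' g' l).1) ()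
    simpa using this
  refine ⟨u', hu', h2, fun l => ?_⟩
  have h3 := (comb (fun i l => c (z i) l) m hm r' g' l).2
  have h4 := pr_mul he1 (h2 l)
  rw [add_zero, ← h1, h3] at h4
  have h5 := k1 l
  rw [e1] at h5
  have hp0 : (p : R) ≠ 0 := by
    rw [AddMonoidAlgebra.natCast_def, AddMonoidAlgebra.single_ne_zero]
    exact_mod_cast hp.ne_zero
  refine mul_left_cancel₀ (mul_ne_zero hp0 he2) ?_
  have k0 := k' 0
  have k1 := k' 1
  have k2 := k' 2
  simp only [Fin.sum_univ_three, Pi.smul_apply, smul_eq_mul] at h4 h5 k0 k1 k2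
  linear_combination h5 - (p : R) * h4 + pr ψ (m 0) (c (z 0) l) * k0 +
    pr ψ (m 1) (c (z 1) l) * k1 + pr ψ (m 2) (c (z 2) l) * k2

end Pool.Agent.Lib.MP_179850_al
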