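import Pool.Agent.Lib.MP_179850_al.Main
import Pool.Agent.Lib.MP_179850_al.Coc

/-! Groups between four transvections and the outer automorphism group. -/

set_option autoImplicit false

namespace Pool.Agent.Lib.MP_179850_al

open Finset Filter

universe u v w

theorem act_conj (m : M) {u : V} (hu : bd u = 0) : act (MulAut.conj m) u = mono (ab m) • u := by
  have h1 : ∀ f, st ((MulAut.conj m : G) : M →* M) f = f := st_of_th fun a => by
    rw [← ab_sec a, ← ab_map]
    simp [ab_mul, ab_inv]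
  have h2 : ∀ i, D (m * y i * m⁻¹) = mono (ab m) • Pi.single i 1 - sg i • D m := fun i => by
    have : mono (ab m + Pi.single i 1) * mono (-ab m) = mono (Pi.single i 1) := by
      rw [← mono_add, add_neg_cancel_comm]
    rw [D_mul, D_mul, D_inv, D_y, ab_mul, ab_y, smul_neg, smul_smul, this, sg]
    module
  have h3 : ∑ i, u i * sg i = 0 := hu
  rw [act, rho_apply]
  simp only [h1, MonoidHom.coe_coe, MulAut.conj_apply, h2, smul_sub, sum_sub_distrib, smul_smul,
    ← sum_smul, h3, zero_smul, sub_zero]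
  ext1 j
  simp [Pi.single_apply, mul_comm]

theorem w_conj (p : ℕ) (g : G) (m : M) (l : Fin 3) :
    w p (g * MulAut.conj m) l = 0 ↔ w p g l = 0 := by
  obtain ⟨a, ha⟩ : ∃ a, ∀ l, co p (act (g * MulAut.conj m) (eta 0)) l =
      mono a * co p (act g (eta 0)) l := ⟨th (g : M →* M) (ab m), fun l => by
    rw [act_mul, act_conj m (bd_eta 0), act, rho_smul, st_mono]
    fin_cases l <;> simp [co, act] <;> ring⟩
  have h0 : mono a ≠ 0 := by simp [mono]
  have hf : Fil chi (chi a) (mono a) := Fil.single _ le_rfl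
  have hp : pr chi (chi a) (mono a) = mono a := by rw [mono, pr_single, if_pos rfl]
  have sp : ∀ g, (∀ l, Fil chi (ord p g) (co p (act g (eta 0)) l)) ∧
      ∃ l, pr chi (ord p g) (co p (act g (eta 0)) l) ≠ 0 := fun g => (exists_w p g).choose_spec
  obtain ⟨h1, l1, h2⟩ := sp g
  obtain ⟨h3, l3, h4⟩ := sp (g * MulAut.conj m)
  rw [w, w]
  simp only [ha] at h3 h4 ⊢
  generalize ord p (g * MulAut.conj m) = j at h3 h4 ⊢
  have h5 := fun l => (hf.mul_aux (h1 l)).2
  rw [hp] at h5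
  obtain rfl : j = chi a + ord p g := by
    rcases lt_trichotomy j (chi a + ord p g) with e | e | e
    · exact absurd ((hf.mul (h1 l3)).pr_eq_zero e) h4
    · exact e
    · exact absurd ((h5 l1).symm.trans ((h3 l1).pr_eq_zero e)) (mul_ne_zero h0 h2)
  rw [h5, mul_eq_zero_iff_left h0]

theorem dl_congr {v v' z z' : Fin 3 → R} (h : ∀ l, z l = 0 ↔ v l = 0)
    (h' : ∀ l, z' l = 0 ↔ v' l = 0) : dl z z' = dl v v' := by
  simp only [dl, h, h', ne_eq]

/-- The loop around a triangle of the projective plane. -/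
theorem loop : ∃ a b c d : G, (∀ t ∈ [a, b, c, d], ∀ x, t x * x⁻¹ ∈ commutator M) ∧
    (∀ t ∈ [b, c, d], act t (eta 0) = eta 0) ∧ ∀ p : ℕ,
      a⁻¹ * (b ^ p * (c ^ p * d) * (b ^ p)⁻¹) * (a * a) * ((b ^ p)⁻¹ * (c ^ p * d) * b ^ p) * a⁻¹ *
        (c ^ p * d * (c ^ p * d))⁻¹ = 1 ∧ dl (w p 1) (w p a⁻¹) = 1 ∧
      w p (a⁻¹ * (b ^ p * (c ^ p * d) * (b ^ p)⁻¹) * (a * a)) 1 ≠ 0 := by
  have ex : ∀ (i l : Fin 4), i ≠ l → i ≠ 3 → ∀ r : R, ∃ g : G,
      (∀ x, g x * x⁻¹ ∈ commutator M) ∧ IsT g i (r • eta l) := fun i l hl hi r => by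
    obtain ⟨g, h1, h⟩ := exists_trans i l hl hi r
    refine ⟨g, fun x => mem_commutator ?_, fun u => by rw [act, h, smul_smul]⟩
    rw [ab_mul, ab_inv, ← h1 (ab x), ← ab_map]
    exact add_neg_cancel _
  let ti : R := mono (-Pi.single 3 1)
  have hti : tt * ti = 1 := by rw [tt, ← mono_add, add_neg_cancel, mono_zero]
  obtain ⟨a, ia, ha⟩ := ex 0 2 (by decide) (by decide) (sg 0)
  obtain ⟨b, ib, hb⟩ := ex 1 2 (by decide) (by decide) 1
  obtain ⟨c, ic, hc⟩ := ex 2 0 (by decide) (by decide) ti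
  obtain ⟨d, id, hd⟩ := ex 2 1 (by decide) (by decide) (ti * sg 0)
  have e00 : eta 0 0 = eps := by simp [eta]
  have e01 : eta 0 1 = 0 := by simp [eta]
  have e02 : eta 0 2 = 0 := by simp [eta]
  have e10 : eta 1 0 = 0 := by simp [eta]
  have e11 : eta 1 1 = eps := by simp [eta]
  have e12 : eta 1 2 = 0 := by simp [eta]
  have e20 : eta 2 0 = 0 := by simp [eta]
  have e21 : eta 2 1 = 0 := by simp [eta]
  have e22 : eta 2 2 = eps := by simp [eta]
  refine ⟨a, b, c, d, by simpa only [List.forall_mem_cons] using ⟨ia, ib, ic, id, by simp⟩,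
    by simp [hb _, hc _, hd _, e01, e02], fun p => ?_⟩
  have hB := hb.pow (by simp [e21]) p
  have hτ := (hc.pow (by simp [e02]) p).mul hd (by simp [e12])
  generalize b ^ p = B at hB
  generalize c ^ p * d = τ at hτ
  have ha' := ha.inv (by simp [e20])
  have hB' := hB.inv (by simp [e21])
  have w1 : w p 1 = ![sg 0, 0, 0] := w_eq p 1 _ (fun e => sg_ne 0 (congrFun e 0)) fun l => by
    rw [act_one]
    fin_cases l
    · exact (ev_b.mul ev_eps).of_eq (by simp [co, e00, e01]) (by simp)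
    · exact ev_zero.of_eq (by simp [co, e01]) (by simp)
    · exact ev_zero.of_eq (by simp [co, e02]) (by simp)
  have w2 : w p a⁻¹ = ![sg 0, 0, -sg 0] :=
    w_eq p _ _ (fun e => sg_ne 0 (congrFun e 0)) fun l => by
      rw [ha']
      fin_cases l
      · exact (ev_b.mul ev_eps).of_eq (by simp [co, e00, e01, e20, e21]) (by simp)
      · exact ev_zero.of_eq (by simp [co, e01, e21]) (by simp)
      · exact ((ev_b.mul ev_eps).mul ev_eps).neg.of_eq (by simp [co, e00, e02, e22]; ring)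
          (by simp)
  have w4 : w p (a⁻¹ * (B * τ * B⁻¹) * (a * a)) = ![sg 0, 2 * sg 0 * sg 0, sg 0] :=
    w_eq p _ _ (fun e => sg_ne 0 (congrFun e 0)) fun l => by
      simp only [act_mul, ha _, ha' _, hB _, hB' _, hτ _]
      fin_cases l
      · refine (ev_b.mul ev_eps).of_eq ?_ (by simp)
        simp [co, e00, e01, e02, e10, e11, e12, e20, e21, e22]
        ring
      · refine ((((((ev_nat 2).mul ev_b).mul ev_b).mul ev_eps).mul ev_eps).mul ev_eps).of_eq ?_
          (by simp)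
        simp [co, e00, e01, e02, e10, e11, e12, e20, e21, e22]
        linear_combination (2 * sg 0 * sg 0 * eps * eps * eps) * hti
      · refine ((ev_b.mul ev_eps).mul ev_eps).of_eq ?_ (by simp)
        simp [co, e00, e01, e02, e10, e11, e12, e20, e21, e22]
        ring
  refine ⟨?_, by simp [w1, w2, dl, sg_ne], ?_⟩
  · rw [mul_inv_eq_one]
    refine ext_act fun u => ?_
    simp only [act_mul, ha _, ha' _, hB _, hB' _, hτ _, Pi.add_apply, Pi.smul_apply, Pi.neg_apply,
      smul_eq_mul, e00, e01, e02, e10, e11, e12, e20, e21, e22]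
    module
  · rw [w4]
    have : (2 : R) ≠ 0 := by
      rw [AddMonoidAlgebra.ofNat_def, AddMonoidAlgebra.single_ne_zero]
      decide
    exact mul_ne_zero (mul_ne_zero this (sg_ne 0)) (sg_ne 0)

/-- No group between four transvections and the outer automorphism group allows the passage from
cocycles in the limit to cocycles. -/
theorem no_coc : ∃ a b c d : G, (∀ t ∈ [a, b, c, d], ∀ x, t x * x⁻¹ ∈ commutator M) ∧
    ∀ (Γ : Type u) [Group Γ] (ι : Γ →* G), Function.Injective ι →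
      (∀ t ∈ [a, b, c, d], t ∈ ι.range) → ∀ (Q : Type v) [Group Q] (q : Γ →* Q),
      Function.Surjective q → (∀ γ, q γ = 1 → ∃ m, ι γ = MulAut.conj m) →
      ∀ (k : Type w) [CommRing k] [Nontrivial k], ∃ (L : Filter ℕ) (_ : L.NeBot)
        (e : ℕ → Q → Q → k), (∀ h h', ∀ᶠ p in L, Coc (e p) h h') ∧ ∃ T : Finset Q,
          ∀ p, ¬ ∃ f : Q → Q → k, (∀ h h', Coc f h h') ∧ ∀ h ∈ T, f h = e p h := by
  classical
  obtain ⟨a, b, c, d, h1, h2, h3⟩ := loop
  refine ⟨a, b, c, d, h1, fun Γ _ ι hι hT Q _ q hq hk k _ _ => ?_⟩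
  obtain ⟨a, rfl⟩ := hT a (by simp)
  obtain ⟨b, rfl⟩ := hT b (by simp)
  obtain ⟨c, rfl⟩ := hT c (by simp)
  obtain ⟨d, rfl⟩ := hT d (by simp)
  let W : ℕ → Q → Fin 3 → R := fun p x => w p (ι (Function.surjInv hq x))
  have hW : ∀ p γ l, W p (q γ) l = 0 ↔ w p (ι γ) l = 0 := fun p γ l => by
    obtain ⟨m, hm⟩ := hk (γ⁻¹ * Function.surjInv hq (q γ)) (by simp [Function.surjInv_eq])
    rw [← w_conj p (ι γ) m, ← hm, ← map_mul, mul_inv_cancel_left]
  let e : ℕ → Q → Q → k := fun p h x => (dl (W p x) (W p (x * h)) : ℤ)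
  have he : ∀ p γ x, e p (q γ) (q x) = (dl (w p (ι x)) (w p (ι x * ι γ)) : ℤ) := fun p γ x => by
    simp only [e, ← map_mul]
    rw [dl_congr (hW p _) (hW p _)]
  refine ⟨cofinite ⊓ principal {p | p.Prime},
    frequently_iff_neBot.1 Nat.infinite_setOfPred_prime.frequently_cofinite, e, fun h h' => ?_,
    {q a⁻¹, q (a * a), q b, q c, q d}, fun p ⟨f, hf, hfe⟩ => ?_⟩
  · obtain ⟨h, rfl⟩ := hq h
    obtain ⟨h', rfl⟩ := hq h'
    rw [eventually_inf_principal]
    filter_upwards [collinear ![1, ι h, ι h * ι h']] with p hc hp x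
    obtain ⟨x, rfl⟩ := hq x
    have := hc hp (ι x)
    rw [Matrix.det_fin_three] at this
    simp only [Matrix.of_apply, Matrix.cons_val_zero, Matrix.cons_val_one, Matrix.cons_val,
      mul_one] at this
    rw [← map_mul, ← map_mul, he, he, he, map_mul, map_mul, mul_assoc, ← Int.cast_add,
      dl_add (w_ne _ _) (w_ne _ _) (w_ne _ _) this]
  let H : Subgroup Γ :=
    { carrier := {h | act (ι h) (eta 0) = eta 0 ∧ f (q h) = 0}
      one_mem' := ⟨by rw [map_one, act_one], by rw [map_one, (hf 1 1).one]⟩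
      mul_mem' := fun {h h'} h1 h2 => ⟨by rw [map_mul, act_mul, h2.1, h1.1], funext fun x => by
        rw [map_mul, hf, h1.2, h2.2]; simp⟩
      inv_mem' := fun {h} h1 => ⟨by
        conv_lhs => rw [← h1.1, ← act_mul, ← map_mul, inv_mul_cancel, map_one, act_one],
        funext fun x => by simpa [h1.2, (hf 1 1).one] using (hf (q h)⁻¹ (q h) x).symm⟩ }
  have hH : ∀ h, ι h ∈ [ι b, ι c, ι d] → f (q h) = e p (q h) → h ∈ H := fun h h1 h4 =>
    ⟨h2 _ h1, funext fun x => by
      obtain ⟨x, rfl⟩ := hq x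
      rw [h4, he, w_stab p _ (h2 _ h1), dl_self, Int.cast_zero, Pi.zero_apply]⟩
  have hB := H.pow_mem (hH b (by simp) (hfe _ (by simp))) p
  have hτ := H.mul_mem (H.pow_mem (hH c (by simp) (hfe _ (by simp))) p)
    (hH d (by simp) (hfe _ (by simp)))
  obtain ⟨r1, r2, r3⟩ := h3 p
  simp only [← map_pow, ← map_mul, ← map_inv] at r1 r2 r3
  have k1 := H.mul_mem (H.mul_mem hB hτ) (H.inv_mem hB)
  have k2 := H.mul_mem (H.mul_mem (H.inv_mem hB) hτ) hB
  have k3 := H.inv_mem (H.mul_mem hτ hτ)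
  generalize b ^ p * (c ^ p * d) * (b ^ p)⁻¹ = κ at r1 r3 k1
  generalize (b ^ p)⁻¹ * (c ^ p * d) * b ^ p = κ' at r1 k2
  generalize (c ^ p * d * (c ^ p * d))⁻¹ = κ'' at r1 k3
  have hf' : ∀ γ γ' x, f (q (γ * γ')) (q x) = f (q γ) (q x) + f (q γ') (q (x * γ)) :=
    fun γ γ' x => by rw [map_mul, map_mul, hf]
  have h4 : f (q (a⁻¹ * κ * (a * a) * κ' * a⁻¹ * κ'')) (q 1) = 0 := by
    rw [(map_eq_one_iff ι hι).1 r1, map_one, (hf 1 1).one, Pi.zero_apply]
  have h5 : w p (ι (a⁻¹ * κ * (a * a) * κ')) 1 ≠ 0 := by rwa [map_mul, w_stab p _ k2.1]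
  rw [hf', hf', hf', hf', hf', k1.2, k2.2, k3.2, hfe (q a⁻¹) (by simp), hfe (q (a * a)) (by simp),
    he, he, he] at h4
  simp only [one_mul, ← map_mul] at h4
  rw [dl_left h5, dl_swap (w p (ι (a⁻¹ * κ * (a * a)))), dl_left r3, map_one, r2] at h4
  simp at h4

end Pool.Agent.Lib.MP_179850_al
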