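import Pool.Agent.Lib.MP_179850_al.Filt

/-! The Magnus embedding of the free metabelian group of rank four and Jacobian matrices of its
endomorphisms. -/

set_option autoImplicit false

namespace Pool.Agent.Lib.MP_179850_al

open Finset

/-- The free metabelian group of rank four. -/
abbrev M : Type := FreeGroup (Fin 4) ⧸ derivedSeries (FreeGroup (Fin 4)) 2

/-- The free generators. -/
def y (i : Fin 4) : M := QuotientGroup.mk (FreeGroup.of i)

theorem M.ind {P : M → Prop} (h1 : P 1) (hy : ∀ i, P (y i)) (hi : ∀ m, P m → P m⁻¹)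
    (hm : ∀ m n, P m → P n → P (m * n)) (m : M) : P m := by
  obtain ⟨w, rfl⟩ := QuotientGroup.mk_surjective m
  induction w using FreeGroup.induction_on with
  | C1 => exact h1
  | of i => exact hy i
  | inv_of i h => exact hi _ h
  | mul u v hu hv => exact hm _ _ hu hv

theorem M.der : derivedSeries M 2 = ⊥ := by
  rw [← map_derivedSeries_eq (QuotientGroup.mk'_surjective (derivedSeries (FreeGroup (Fin 4)) 2)),
    Subgroup.map_eq_bot_iff, QuotientGroup.ker_mk']

/-- The universal property. -/
def liftM {H : Type} [Group H] (hH : derivedSeries H 2 = ⊥) (f : Fin 4 → H) : M →* H :=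
  QuotientGroup.lift _ (FreeGroup.lift f) fun w hw => by
    have := map_derivedSeries_le_derivedSeries (FreeGroup.lift f) 2 ⟨w, hw, rfl⟩
    rwa [hH, Subgroup.mem_bot] at this

theorem liftM_y {H : Type} [Group H] (hH : derivedSeries H 2 = ⊥) (f : Fin 4 → H) (i : Fin 4) :
    liftM hH f (y i) = f i :=
  FreeGroup.lift_apply_of

theorem M.hom_ext {H : Type} [Group H] {f g : M →* H} (h : ∀ i, f (y i) = g (y i)) : f = g :=
  MonoidHom.ext (M.ind (by simp) h (fun m h => by simp [h]) fun m n h h' => by simp [h, h'])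

/-- The Magnus group. -/
@[ext] structure Mag where
  /-- the abelian part -/
  a : A
  /-- the module part -/
  u : V

noncomputable instance : Mul Mag := ⟨fun s t => ⟨s.a + t.a, s.u + mono s.a • t.u⟩⟩
noncomputable instance : One Mag := ⟨⟨0, 0⟩⟩
noncomputable instance : Inv Mag := ⟨fun s => ⟨-s.a, -(mono (-s.a) • s.u)⟩⟩

@[simp] theorem Mag.mul_a (s t : Mag) : (s * t).a = s.a + t.a := rfl
@[simp] theorem Mag.mul_u (s t : Mag) : (s * t).u = s.u + mono s.a • t.u := rfl
@[simp] theorem Mag.one_a : (1 : Mag).a = 0 := rfl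
@[simp] theorem Mag.one_u : (1 : Mag).u = 0 := rfl
@[simp] theorem Mag.inv_a (s : Mag) : s⁻¹.a = -s.a := rfl
@[simp] theorem Mag.inv_u (s : Mag) : s⁻¹.u = -(mono (-s.a) • s.u) := rfl

noncomputable instance : Group Mag :=
  Group.ofLeftAxioms
    (fun s t r => Mag.ext (by simp [add_assoc]) (by simp [mono_add, mul_smul, add_assoc]))
    (fun s => Mag.ext (by simp) (by simp [mono_zero]))
    (fun s => Mag.ext (by simp) (by simp))

/-- The projection of the Magnus group onto the lattice. -/
noncomputable def Mag.ab : Mag →* Multiplicative A where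
  toFun s := .ofAdd s.a
  map_one' := rfl
  map_mul' _ _ := rfl

theorem Mag.der : derivedSeries Mag 2 = ⊥ := by
  rw [eq_bot_iff, derivedSeries_succ, Subgroup.commutator_le, derivedSeries_one]
  intro s hs t ht
  have h1 : s.a = 0 := Abelianization.commutator_subset_ker Mag.ab hs
  have h2 : t.a = 0 := Abelianization.commutator_subset_ker Mag.ab ht
  rw [Subgroup.mem_bot, commutatorElement_eq_one_iff_mul_comm]
  exact Mag.ext (by simp [h1, h2]) (by simp [h1, h2, mono_zero, add_comm])

/-- The Magnus homomorphism. -/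
noncomputable def mag : M →* Mag := liftM Mag.der fun i => ⟨Pi.single i 1, Pi.single i 1⟩

/-- The image in the abelianization. -/
noncomputable def ab (m : M) : A := (mag m).a

/-- The vector of Fox derivatives. -/
noncomputable def D (m : M) : V := (mag m).u

theorem ab_y (i : Fin 4) : ab (y i) = Pi.single i 1 := by simp [ab, mag, liftM_y]
theorem D_y (i : Fin 4) : D (y i) = Pi.single i 1 := by simp [D, mag, liftM_y]
theorem ab_one : ab 1 = 0 := by simp [ab]
theorem D_one : D 1 = 0 := by simp [D]
theorem ab_mul (m n : M) : ab (m * n) = ab m + ab n := by simp [ab]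
theorem D_mul (m n : M) : D (m * n) = D m + mono (ab m) • D n := by simp [D, ab]
theorem ab_inv (m : M) : ab m⁻¹ = -ab m := by simp [ab]
theorem D_inv (m : M) : D m⁻¹ = -(mono (-ab m) • D m) := by simp [D, ab]

theorem ab_zpow (m : M) (k : ℤ) : ab (m ^ k) = k • ab m := by
  have : (Mag.ab.comp mag) (m ^ k) = (Mag.ab.comp mag) m ^ k := map_zpow _ _ _
  exact congrArg Multiplicative.toAdd this

theorem mem_commutator {m : M} (h : ab m = 0) : m ∈ commutator M := by
  have key : ∀ m : M, Abelianization.of m = ∏ i, Abelianization.of (y i) ^ ab m i := by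
    refine M.ind (by simp [ab_one]) (fun i => ?_) (fun m h => ?_) fun m n h h' => ?_
    · rw [ab_y, prod_eq_single i (fun j _ hj => by simp [hj]) (by simp)]
      simp
    · rw [map_inv, h, ab_inv, ← prod_inv_distrib]
      simp
    · rw [map_mul, h, h', ab_mul, ← prod_mul_distrib]
      simp [zpow_add]
  rw [← Abelianization.ker_of, MonoidHom.mem_ker, key, h]
  simp

theorem comm_of_ab {m n : M} (h : ab m = 0) (h' : ab n = 0) : m * n = n * m := by
  rw [← commutatorElement_eq_one_iff_mul_comm, ← Subgroup.mem_bot, ← M.der]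
  exact Subgroup.commutator_mem_commutator (mem_commutator h) (mem_commutator h')

/-- A section of the abelianization map. -/
def sec (a : A) : M := y 0 ^ a 0 * y 1 ^ a 1 * y 2 ^ a 2 * y 3 ^ a 3

theorem ab_sec (a : A) : ab (sec a) = a := by
  ext i
  fin_cases i <;> simp [sec, ab_mul, ab_zpow, ab_y]

theorem eq_one_of_D {m : M} (h : ab m = 0) (h' : D m = 0) : m = 1 := by
  let N : Subgroup M := (Mag.ab.comp mag).ker
  have hN : ∀ m : M, m ∈ N ↔ ab m = 0 := fun m => Iff.rfl
  let n : A → M → Additive (Abelianization N) := fun a m =>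
    .ofMul (Abelianization.of ⟨sec a * m * (sec (a + ab m))⁻¹, (hN _).2 (by
      simp [ab_mul, ab_inv, ab_sec])⟩)
  have hn : ∀ a m m', n a (m * m') = n a m + n (a + ab m) m' := by
    intro a m m'
    simp only [n]
    rw [← ofMul_mul, ← map_mul]
    congr 2
    ext
    simp [ab_mul, add_assoc, mul_assoc]
  have hn1 : ∀ a, n a 1 = 0 := by
    intro a
    have := hn a 1 1
    rw [mul_one, ab_one, add_zero] at this
    exact left_eq_add.1 this
  let T : Fin 4 → R →+ Additive (Abelianization N) := fun i =>
    (Finsupp.liftAddHom fun a => zmultiplesHom _ (n a (y i))).comp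
      AddMonoidAlgebra.coeffAddEquiv.toAddMonoidHom
  let Θ : V →+ Additive (Abelianization N) :=
    { toFun := fun u => ∑ i, T i (u i)
      map_zero' := by simp
      map_add' := fun u v => by simp [sum_add_distrib] }
  have key : ∀ m a, Θ (mono a • D m) = n a m := by
    refine M.ind (fun a => by simp [D_one, hn1]) (fun i a => ?_) (fun m h a => ?_)
      fun m m' h h' a => ?_
    · change ∑ j, T j ((mono a • D (y i)) j) = _
      rw [D_y, sum_eq_single i (fun j _ hj => by simp [hj]) (by simp)]
      simp [T, mono, AddMonoidAlgebra.coeffAddEquiv]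
    · have h1 := hn a m⁻¹ m
      rw [inv_mul_cancel, hn1, ab_inv, ← h] at h1
      rw [D_inv, smul_neg, map_neg, smul_smul, ← mono_add]
      exact (eq_neg_of_add_eq_zero_left h1.symm).symm
    · rw [D_mul, smul_add, map_add, smul_smul, ← mono_add, h, h', hn]
  have h1 := key m 0
  rw [h', smul_zero, map_zero] at h1
  have h2 : (⟨sec 0 * m * (sec (0 + ab m))⁻¹, _⟩ : N) ∈ (Abelianization.of (G := N)).ker :=
    h1.symm
  have h3 : commutator N = ⊥ := by
    rw [eq_bot_iff, commutator_def, Subgroup.commutator_le]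
    intro s _ t _
    rw [Subgroup.mem_bot, commutatorElement_eq_one_iff_mul_comm]
    exact Subtype.ext (comm_of_ab ((hN _).1 s.2) ((hN _).1 t.2))
  rw [Abelianization.ker_of, h3, Subgroup.mem_bot, Subtype.ext_iff] at h2
  simpa [h, sec] using h2

/-- The elements `x i - 1`. -/
noncomputable def sg (i : Fin 4) : R := mono (Pi.single i 1) - 1

/-- The boundary map. -/
noncomputable def bd : V →ₗ[R] R where
  toFun u := ∑ i, u i * sg i
  map_add' u v := by simp [add_mul, sum_add_distrib]
  map_smul' c u := by simp [mul_sum, mul_assoc]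

theorem bd_single (i : Fin 4) : bd (Pi.single i 1) = sg i := by
  change ∑ j, (Pi.single i 1 : V) j * sg j = _
  rw [sum_eq_single i (fun j _ hj => by simp [hj]) (by simp)]
  simp

theorem bd_D (m : M) : bd (D m) = mono (ab m) - 1 := by
  refine M.ind (P := fun m => bd (D m) = mono (ab m) - 1) (by simp [D_one, ab_one, mono_zero])
    (fun i => ?_) (fun m h => ?_) (fun m n h h' => ?_) m
  · rw [D_y, bd_single, ab_y, sg]
  · have := mono_add (-ab m) (ab m)
    rw [neg_add_cancel, mono_zero] at this
    rw [D_inv, map_neg, map_smul, h, ab_inv, smul_eq_mul]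
    linear_combination this
  · rw [D_mul, map_add, map_smul, h, h', ab_mul, mono_add, smul_eq_mul]
    ring

theorem D_inj {m n : M} (h : D m = D n) : m = n := by
  have h1 : ab m = ab n := mono_inj (by
    have h2 := bd_D m
    rw [h, bd_D] at h2
    linear_combination -h2)
  refine (inv_mul_eq_one.1 (eq_one_of_D ?_ ?_))
  · rw [ab_mul, ab_inv, h1, neg_add_cancel]
  · rw [D_mul, D_inv, ab_inv, h, neg_add_cancel]

/-- The action of an endomorphism on the abelianization. -/
noncomputable def th (φ : M →* M) : A →+ A where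
  toFun a := ∑ i, a i • ab (φ (y i))
  map_zero' := by simp
  map_add' a b := by simp [add_smul, sum_add_distrib]

theorem th_single (φ : M →* M) (i : Fin 4) : th φ (Pi.single i 1) = ab (φ (y i)) := by
  change ∑ j, (Pi.single i 1 : A) j • ab (φ (y j)) = _
  rw [sum_eq_single i (fun j _ hj => by simp [hj]) (by simp)]
  simp

theorem ab_map (φ : M →* M) (m : M) : ab (φ m) = th φ (ab m) := by
  refine M.ind (P := fun m => ab (φ m) = th φ (ab m)) (by simp [ab_one])
    (fun i => ?_) (fun m h => ?_) (fun m n h h' => ?_) m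
  · rw [ab_y, th_single]
  · rw [map_inv, ab_inv, ab_inv, map_neg, h]
  · rw [map_mul, ab_mul, ab_mul, map_add, h, h']

theorem th_comp (φ φ' : M →* M) (a : A) : th (φ.comp φ') a = th φ (th φ' a) := by
  rw [← ab_sec a, ← ab_map, ← ab_map, ← ab_map]; rfl

theorem th_id (a : A) : th (MonoidHom.id M) a = a := by
  rw [← ab_sec a, ← ab_map]; rfl

/-- The action of an endomorphism on the group ring of the abelianization. -/
noncomputable def st (φ : M →* M) : R →+* R := AddMonoidAlgebra.mapDomainRingHom ℤ (th φ)

theorem st_single (φ : M →* M) (a : A) (c : ℤ) :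
    st φ (.single a c) = .single (th φ a) c := by simp [st]

theorem st_mono (φ : M →* M) (a : A) : st φ (mono a) = mono (th φ a) := st_single φ a 1

theorem R.ind {P : R → Prop} (h0 : P 0) (ha : ∀ x y, P x → P y → P (x + y))
    (hs : ∀ a c, P (.single a c)) (f : R) : P f :=
  AddMonoidAlgebra.induction_linear f h0 ha hs

theorem st_comp (φ φ' : M →* M) (f : R) : st (φ.comp φ') f = st φ (st φ' f) :=
  R.ind (P := fun f => st (φ.comp φ') f = st φ (st φ' f)) (by simp)
    (fun x y hx hy => by simp only [map_add, hx, hy])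
    (fun a c => by simp only [st_single, th_comp]) f

theorem st_of_th {φ : M →* M} (h : ∀ a, th φ a = a) (f : R) : st φ f = f :=
  R.ind (P := fun f => st φ f = f) (by simp) (fun x y hx hy => by simp only [map_add, hx, hy])
    (fun a c => by simp only [st_single, h]) f

/-- The Jacobian action of an endomorphism on the free module. -/
noncomputable def rho (φ : M →* M) : V →+ V where
  toFun u := ∑ i, st φ (u i) • D (φ (y i))
  map_zero' := by simp
  map_add' u v := by simp [add_smul, sum_add_distrib]

theorem rho_apply (φ : M →* M) (u : V) : rho φ u = ∑ i, st φ (u i) • D (φ (y i)) := rfl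

theorem rho_smul (φ : M →* M) (c : R) (u : V) : rho φ (c • u) = st φ c • rho φ u := by
  simp [rho_apply, smul_sum, mul_smul]

theorem rho_single (φ : M →* M) (i : Fin 4) : rho φ (Pi.single i 1) = D (φ (y i)) := by
  rw [rho_apply, sum_eq_single i (fun j _ hj => by simp [hj]) (by simp)]
  simp

theorem D_map (φ : M →* M) (m : M) : D (φ m) = rho φ (D m) := by
  refine M.ind (P := fun m => D (φ m) = rho φ (D m)) (by simp [D_one])
    (fun i => ?_) (fun m h => ?_) (fun m n h h' => ?_) m
  · rw [D_y, rho_single]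
  · rw [map_inv, D_inv, D_inv, map_neg, rho_smul, st_mono, h, map_neg, ab_map]
  · rw [map_mul, D_mul, D_mul, map_add, rho_smul, st_mono, h, h', ab_map]

theorem rho_comp (φ φ' : M →* M) (u : V) : rho (φ.comp φ') u = rho φ (rho φ' u) := by
  rw [rho_apply, rho_apply φ', map_sum]
  exact sum_congr rfl fun i _ => by rw [rho_smul, st_comp, ← D_map]; rfl

theorem rho_id (u : V) : rho (MonoidHom.id M) u = u := by
  rw [rho_apply]
  ext1 j
  simp [st_of_th th_id, D_y, Pi.single_apply]

theorem bd_rho (φ : M →* M) (u : V) : bd (rho φ u) = st φ (bd u) := by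
  rw [rho_apply, map_sum]
  change _ = st φ (∑ i, u i * sg i)
  rw [map_sum]
  refine sum_congr rfl fun i _ => ?_
  rw [map_smul, bd_D, map_mul, sg, map_sub, st_mono, th_single, map_one, smul_eq_mul]

theorem ext_rho {φ φ' : M →* M} (h : ∀ u, rho φ u = rho φ' u) : φ = φ' :=
  M.hom_ext fun i => D_inj (by rw [D_map, D_map, h])

theorem exists_D_smul {k : M} (hk : ab k = 0) (r : R) : ∃ k', ab k' = 0 ∧ D k' = r • D k := by
  refine R.ind (P := fun r => ∃ k', ab k' = 0 ∧ D k' = r • D k) ⟨1, ab_one, by simp [D_one]⟩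
    ?_ (fun a c => ?_) r
  · rintro r s ⟨k1, h1, h2⟩ ⟨k2, h3, h4⟩
    exact ⟨k1 * k2, by simp [ab_mul, h1, h3], by
      rw [D_mul, h1, mono_zero, one_smul, h2, h4, add_smul]⟩
  · have h1 : ab (sec a * k * (sec a)⁻¹) = 0 := by simp [ab_mul, ab_inv, hk]
    have h2 : D (sec a * k * (sec a)⁻¹) = mono a • D k := by
      rw [D_mul, D_mul, D_inv, ab_mul, hk, add_zero, smul_neg, smul_smul, ← mono_add,
        add_neg_cancel, mono_zero, one_smul, ab_sec]
      abel
    refine ⟨(sec a * k * (sec a)⁻¹) ^ c, by rw [ab_zpow, h1, smul_zero], ?_⟩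
    have h3 : ∀ c : ℤ, D ((sec a * k * (sec a)⁻¹) ^ c) = c • mono a • D k := by
      intro c
      induction c using Int.induction_on with
      | zero => simp [D_one]
      | succ n ih =>
        rw [zpow_add_one, D_mul, ih, ab_zpow, h1, smul_zero, mono_zero, one_smul, h2, add_smul,
          one_smul]
      | pred n ih =>
        rw [zpow_sub_one, D_mul, ih, ab_zpow, D_inv, h1, smul_zero, neg_zero, mono_zero, one_smul,
          one_smul, h2, sub_smul, one_smul, sub_eq_add_neg]
    rw [h3, ← smul_assoc, mono, AddMonoidAlgebra.smul_single, smul_eq_mul, mul_one]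

/-- The elementary endomorphism multiplying the generator `y i` by `k`. -/
noncomputable def el (i : Fin 4) (k : M) : M →* M :=
  liftM M.der fun j => if j = i then k * y j else y j

theorem th_el (i : Fin 4) {k : M} (hk : ab k = 0) (a : A) : th (el i k) a = a := by
  have : ∀ j, ab (el i k (y j)) = Pi.single j 1 := fun j => by
    rw [el, liftM_y]
    split_ifs <;> simp [ab_mul, hk, ab_y]
  change ∑ j, a j • ab (el i k (y j)) = a
  ext l
  simp [this, Pi.single_apply]

theorem rho_el (i : Fin 4) {k : M} (hk : ab k = 0) (u : V) :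
    rho (el i k) u = u + u i • D k := by
  have : ∀ j, D (el i k (y j)) = Pi.single j 1 + if j = i then D k else 0 := fun j => by
    rw [el, liftM_y]
    split_ifs <;> simp [D_mul, hk, D_y, mono_zero, add_comm]
  rw [rho_apply]
  simp only [st_of_th (th_el i hk), this, smul_add, sum_add_distrib, smul_ite, smul_zero,
    sum_ite_eq', mem_univ, if_true]
  congr 1
  ext1 l
  simp [Pi.single_apply]

/-- Transvections exist as automorphisms. -/
theorem exists_aut (i : Fin 4) {k : M} (hk : ab k = 0) (hi : D k i = 0) :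
    ∃ g : MulAut M, (∀ a, th (g : M →* M) a = a) ∧
      ∀ u, rho (g : M →* M) u = u + u i • D k := by
  have hk' : ab k⁻¹ = 0 := by rw [ab_inv, hk, neg_zero]
  have hD : D k⁻¹ = -D k := by rw [D_inv, hk, neg_zero, mono_zero, one_smul]
  refine ⟨MonoidHom.toMulEquiv (el i k) (el i k⁻¹) (ext_rho fun u => ?_) (ext_rho fun u => ?_),
    th_el i hk, rho_el i hk⟩
  · rw [rho_comp, rho_id, rho_el i hk, rho_el i hk', hD]
    simp [hi]
  · rw [rho_comp, rho_id, rho_el i hk', rho_el i hk, hD]
    simp [hi]

/-- The element `1 - t`. -/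
noncomputable def eps : R := -sg 3

/-- The derivative of the commutator of `y l` with the last generator. -/
noncomputable def eta (l : Fin 4) : V := eps • Pi.single l 1 + sg l • Pi.single 3 1

theorem exists_trans (i l : Fin 4) (hl : i ≠ l) (hi : i ≠ 3) (r : R) :
    ∃ g : MulAut M, (∀ a, th (g : M →* M) a = a) ∧
      ∀ u, rho (g : M →* M) u = u + (u i * r) • eta l := by
  have h1 : ab (y l * y 3 * (y l)⁻¹ * (y 3)⁻¹) = 0 := by simp [ab_mul, ab_inv]
  have h2 : D (y l * y 3 * (y l)⁻¹ * (y 3)⁻¹) = eta l := by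
    simp only [D_mul, D_inv, ab_mul, ab_inv, smul_neg, smul_smul, ← mono_add, ab_y, D_y]
    rw [eta, eps, sg, sg, add_neg_cancel_comm, add_neg_cancel, mono_zero]
    module
  obtain ⟨k, hk, hD⟩ := exists_D_smul h1 r
  rw [h2] at hD
  obtain ⟨g, h3, h4⟩ := exists_aut i hk (by rw [hD, eta]; simp [hl, hi])
  exact ⟨g, h3, fun u => by rw [h4, hD, smul_smul]⟩

end Pool.Agent.Lib.MP_179850_al
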