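import Pool.Agent.Lib.MP_179850_al.Coll

/-! The automorphism group of the free metabelian group of rank four is not finitely presented. -/

set_option autoImplicit false

namespace Pool.Agent.Lib.MP_179850_al

open Finset Filter

open Classical in
/-- The cochain counting passages through the flag made of the point `(1, 0, 0)` and the line
`v 1 = 0` of the projective plane. -/
noncomputable def dl (v v' : Fin 3 → R) : ℤ :=
  if (v 1 = 0 ∧ v 2 = 0) ∧ (v' 1 = 0 ∧ v' 2 ≠ 0) then 1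
  else if (v' 1 = 0 ∧ v' 2 = 0) ∧ (v 1 = 0 ∧ v 2 ≠ 0) then -1 else 0

theorem dl_self (v : Fin 3 → R) : dl v v = 0 := by
  unfold dl
  split_ifs <;> tauto

theorem dl_swap (v v' : Fin 3 → R) : dl v' v = -dl v v' := by
  unfold dl
  split_ifs <;> tauto

theorem dl_left {v : Fin 3 → R} (h : v 1 ≠ 0) (v' : Fin 3 → R) : dl v v' = 0 := by
  unfold dl
  split_ifs <;> tauto

theorem third {x y z : Fin 3 → R} (hx : x ≠ 0) (x1 : x 1 = 0) (x2 : x 2 = 0) (y2 : y 2 ≠ 0)
    (h : x 0 * y 2 * z 1 = 0) : z 1 = 0 := by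
  have x0 : x 0 ≠ 0 := fun e => hx (by
    ext1 i
    fin_cases i
    exacts [e, x1, x2])
  exact (mul_eq_zero.1 h).resolve_left (mul_ne_zero x0 y2)

theorem dl_zero {x y z : Fin 3 → R} (hx : x ≠ 0) (hy : y ≠ 0) (hz : z 1 ≠ 0)
    (h : x 0 * y 1 * z 2 - x 0 * y 2 * z 1 - x 1 * y 0 * z 2 + x 1 * y 2 * z 0 +
      x 2 * y 0 * z 1 - x 2 * y 1 * z 0 = 0) : dl x y = 0 := by
  unfold dl
  split_ifs with h1 h2
  · obtain ⟨⟨x1, x2⟩, y1, y2⟩ := h1
    exact absurd (third hx x1 x2 y2 (by rw [x1, x2, y1] at h; linear_combination -h)) hz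
  · obtain ⟨⟨y1, y2⟩, x1, x2⟩ := h2
    exact absurd (third hy y1 y2 x2 (by rw [x1, y1, y2] at h; linear_combination h)) hz
  · rfl

theorem dl_add {x y z : Fin 3 → R} (hx : x ≠ 0) (hy : y ≠ 0) (hz : z ≠ 0)
    (h : x 0 * y 1 * z 2 - x 0 * y 2 * z 1 - x 1 * y 0 * z 2 + x 1 * y 2 * z 0 +
      x 2 * y 0 * z 1 - x 2 * y 1 * z 0 = 0) : dl x y + dl y z = dl x z := by
  by_cases x1 : x 1 = 0
  · by_cases y1 : y 1 = 0
    · by_cases z1 : z 1 = 0
      · by_cases x2 : x 2 = 0 <;> by_cases y2 : y 2 = 0 <;> by_cases z2 : z 2 = 0 <;>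
          simp [dl, x1, y1, z1, x2, y2, z2]
      · rw [dl_zero hx hy z1 h, dl_swap z y, dl_swap z x, dl_left z1, dl_left z1]; rfl
    · rw [dl_left y1, dl_swap y x, dl_left y1, dl_zero hx hz y1 (by linear_combination -h)]; rfl
  · rw [dl_left x1, dl_left x1, dl_zero hy hz x1 (by linear_combination h)]; rfl

/-- The permutation of `G × ℤ` recording one step in the Cayley graph. -/
noncomputable def step (p : ℕ) (h : G) : Equiv.Perm (G × ℤ) where
  toFun x := (x.1 * h⁻¹, x.2 + dl (w p x.1) (w p (x.1 * h⁻¹)))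
  invFun x := (x.1 * h, x.2 + dl (w p x.1) (w p (x.1 * h)))
  left_inv x := Prod.ext (by simp) (by simp [dl_swap (w p x.1)])
  right_inv x := Prod.ext (by simp) (by simp [dl_swap (w p x.1)])

theorem step_apply (p : ℕ) (h : G) (g : G) (n : ℤ) :
    step p h (g, n) = (g * h⁻¹, n + dl (w p g) (w p (g * h⁻¹))) := rfl

theorem step_one (p : ℕ) : step p 1 = 1 := by
  ext1 ⟨g, n⟩
  simp [step_apply, dl_self]

theorem step_inv (p : ℕ) (h : G) : step p h⁻¹ = (step p h)⁻¹ := by
  ext1 ⟨g, n⟩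
  rw [step_apply, inv_inv]
  rfl

theorem step_mul (h h' : G) : ∀ᶠ p : ℕ in cofinite, p.Prime →
    step p (h * h') = step p h * step p h' := by
  filter_upwards [collinear ![1, h'⁻¹, h'⁻¹ * h⁻¹]] with p hc hp
  ext1 ⟨g, n⟩
  have := hc hp g
  rw [Matrix.det_fin_three] at this
  simp only [Matrix.of_apply, Matrix.cons_val_zero, Matrix.cons_val_one, Matrix.cons_val,
    mul_one] at this
  rw [Equiv.Perm.mul_apply, step_apply, step_apply, step_apply, mul_inv_rev, mul_assoc, add_assoc,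
    dl_add (w_ne _ _) (w_ne _ _) (w_ne _ _) this]

theorem lift_eq_step {m : ℕ} (f : FreeGroup (Fin m) →* G) (u : FreeGroup (Fin m)) :
    ∀ᶠ p : ℕ in cofinite, p.Prime →
      FreeGroup.lift (fun i => step p (f (FreeGroup.of i))) u = step p (f u) := by
  induction u using FreeGroup.induction_on with
  | C1 => exact Eventually.of_forall fun p _ => by rw [map_one, map_one, step_one]
  | of i => exact Eventually.of_forall fun p _ => FreeGroup.lift_apply_of
  | inv_of i _ =>
    refine Eventually.of_forall fun p _ => ?_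
    rw [map_inv, map_inv, step_inv, FreeGroup.lift_apply_of]
  | mul u v hu hv =>
    filter_upwards [hu, hv, step_mul (f u) (f v)] with p h1 h2 h3 hp
    rw [map_mul, map_mul, h1 hp, h2 hp, h3 hp]

theorem exists_hom {m : ℕ} (f : FreeGroup (Fin m) →* G) (hf : Function.Surjective f)
    (S : Finset (FreeGroup (Fin m))) (hS : f.ker = Subgroup.normalClosure (S : Set _))
    (T : Finset G) : ∃ p : ℕ, p.Prime ∧ ∃ Ψ : G →* Equiv.Perm (G × ℤ),
      ∀ h ∈ T, Ψ h = step p h := by
  have h1 := (eventually_all_finset S).2 fun s _ => lift_eq_step f s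
  have h2 := (eventually_all_finset T).2 fun h _ => lift_eq_step f (Function.surjInv hf h)
  obtain ⟨p, hp, h1, h2⟩ :=
    ((Nat.infinite_setOfPred_prime.frequently_cofinite).and_eventually (h1.and h2)).exists
  refine ⟨p, hp, f.liftOfRightInverse _ (Function.rightInverse_surjInv hf)
    ⟨FreeGroup.lift fun i => step p (f (FreeGroup.of i)), ?_⟩, fun h hh => ?_⟩
  · rw [hS]
    refine Subgroup.normalClosure_le_normal fun s hs => ?_
    have h3 : f s = 1 := (hS ▸ Subgroup.subset_normalClosure hs : s ∈ f.ker)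
    rw [SetLike.mem_coe, MonoidHom.mem_ker, h1 s hs hp, h3, step_one]
  · have := h2 h hh hp
    rw [Function.surjInv_eq hf] at this
    rw [← this]
    conv_lhs => rw [← Function.surjInv_eq hf h]
    exact MonoidHom.liftOfRightInverse_comp_apply _ _ _ _ _

/-- The automorphism `g` acts as the transvection `u ↦ u + u i • v`. -/
def IsT (g : G) (i : Fin 4) (v : V) : Prop := ∀ u, act g u = u + u i • v

theorem IsT.inv {g : G} {i : Fin 4} {v : V} (h : IsT g i v) (hv : v i = 0) : IsT g⁻¹ i (-v) := by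
  intro u
  have h1 := act_inv g u
  rw [h] at h1
  have h2 := congrFun h1 i
  simp only [Pi.add_apply, Pi.smul_apply, hv, smul_zero, add_zero] at h2
  rw [h2] at h1
  rw [← h1, smul_neg, h1]
  exact eq_add_neg_of_add_eq h1

theorem IsT.mul {g g' : G} {i : Fin 4} {v v' : V} (h : IsT g i v) (h' : IsT g' i v')
    (hv : v' i = 0) : IsT (g * g') i (v + v') := by
  intro u
  rw [act_mul, h', h]
  simp only [Pi.add_apply, Pi.smul_apply, hv, smul_zero, add_zero]
  module

theorem IsT.pow {g : G} {i : Fin 4} {v : V} (h : IsT g i v) (hv : v i = 0) (n : ℕ) :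
    IsT (g ^ n) i ((n : R) • v) := by
  induction n with
  | zero => intro u; simp [act_one]
  | succ n ih =>
    have := ih.mul h hv
    rwa [pow_succ, Nat.cast_succ, add_smul, one_smul]

theorem exists_T (i l : Fin 4) (hl : i ≠ l) (hi : i ≠ 3) (r : R) :
    ∃ g : G, IsT g i (r • eta l) := by
  obtain ⟨g, -, h⟩ := exists_trans i l hl hi r
  exact ⟨g, fun u => by rw [act, h, smul_smul]⟩

theorem not_fp {m : ℕ} (f : FreeGroup (Fin m) →* G) (hf : Function.Surjective f)
    (S : Finset (FreeGroup (Fin m))) (hS : f.ker = Subgroup.normalClosure (S : Set _)) :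
    False := by
  classical
  let ti : R := mono (-Pi.single 3 1)
  have hti : tt * ti = 1 := by rw [tt, ← mono_add, add_neg_cancel, mono_zero]
  obtain ⟨a, ha⟩ := exists_T 0 2 (by decide) (by decide) (sg 0)
  obtain ⟨b, hb⟩ := exists_T 1 2 (by decide) (by decide) 1
  obtain ⟨c, hc⟩ := exists_T 2 0 (by decide) (by decide) ti
  obtain ⟨d, hd⟩ := exists_T 2 1 (by decide) (by decide) (ti * sg 0)
  obtain ⟨p, -, Ψ, hΨ⟩ := exists_hom f hf S hS {a, (a * a)⁻¹, b, c, d}
  have e00 : eta 0 0 = eps := by simp [eta]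
  have e01 : eta 0 1 = 0 := by simp [eta]
  have e02 : eta 0 2 = 0 := by simp [eta]
  have e10 : eta 1 0 = 0 := by simp [eta]
  have e11 : eta 1 1 = eps := by simp [eta]
  have e12 : eta 1 2 = 0 := by simp [eta]
  have e20 : eta 2 0 = 0 := by simp [eta]
  have e21 : eta 2 1 = 0 := by simp [eta]
  have e22 : eta 2 2 = eps := by simp [eta]
  let H : Subgroup G :=
    { carrier := {h | act h (eta 0) = eta 0 ∧ ∀ g n, Ψ h (g, n) = (g * h⁻¹, n)}
      one_mem' := ⟨act_one _, fun g n => by simp⟩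
      mul_mem' := fun {h h'} h1 h2 => ⟨by rw [act_mul, h2.1, h1.1], fun g n => by
        rw [map_mul, Equiv.Perm.mul_apply, h2.2, h1.2, mul_inv_rev, mul_assoc]⟩
      inv_mem' := fun {h} h1 => ⟨by conv_lhs => rw [← h1.1, ← act_mul, inv_mul_cancel, act_one],
        fun g n => by
          rw [map_inv, Equiv.Perm.inv_eq_iff_eq, h1.2, inv_inv, mul_inv_cancel_right]⟩ }
  have hH : ∀ h, act h (eta 0) = eta 0 → Ψ h = step p h → h ∈ H := fun h h1 h2 =>
    ⟨h1, fun g n => by
      rw [h2, step_apply, w_stab p g (h := h⁻¹) (by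
        conv_lhs => rw [← h1, ← act_mul, inv_mul_cancel, act_one]), dl_self, add_zero]⟩
  have hbH : b ∈ H := hH b (by rw [hb, e01, zero_smul, add_zero]) (hΨ b (by simp))
  have hcH : c ∈ H := hH c (by rw [hc, e02, zero_smul, add_zero]) (hΨ c (by simp))
  have hdH : d ∈ H := hH d (by rw [hd, e02, zero_smul, add_zero]) (hΨ d (by simp))
  have hB := hb.pow (by simp [e21]) p
  have hτ := (hc.pow (by simp [e02]) p).mul hd (by simp [e12])
  have hBH : b ^ p ∈ H := H.pow_mem hbH p
  have hτH : c ^ p * d ∈ H := H.mul_mem (H.pow_mem hcH p) hdH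
  generalize b ^ p = B at hB hBH
  generalize c ^ p * d = τ at hτ hτH
  have ha' := ha.inv (by simp [e20])
  have hB' := hB.inv (by simp [e21])
  have hrel : a⁻¹ * (B * τ * B⁻¹) * (a * a) * (B⁻¹ * τ * B) * a⁻¹ * (τ * τ)⁻¹ = 1 := by
    rw [mul_inv_eq_one]
    refine ext_act fun u => ?_
    simp only [act_mul, ha _, ha' _, hB _, hB' _, hτ _, Pi.add_apply, Pi.smul_apply, Pi.neg_apply,
      smul_eq_mul, e00, e01, e02, e10, e11, e12, e20, e21, e22]
    module
  have w1 : w p 1 = ![sg 0, 0, 0] := w_eq p 1 _ (fun e => sg_ne 0 (congrFun e 0)) fun l => by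
    rw [act_one]
    fin_cases l
    · exact (ev_b.mul ev_eps).of_eq (by simp [co, e00, e01]) (by simp)
    · exact ev_zero.of_eq (by simp [co, e01]) (by simp)
    · exact ev_zero.of_eq (by simp [co, e02]) (by simp)
  have w2 : w p a⁻¹ = ![sg 0, 0, -sg 0] :=
    w_eq p _ _ (fun e => sg_ne 0 (congrFun e 0)) fun l => by
      rw [ha']
      fin_cases l
      · exact (ev_b.mul ev_eps).of_eq (by simp [co, e00, e01, e20, e21]) (by simp)
      · exact ev_zero.of_eq (by simp [co, e01, e21]) (by simp)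
      · exact ((ev_b.mul ev_eps).mul ev_eps).neg.of_eq (by simp [co, e00, e02, e22]; ring)
          (by simp)
  have w4 : w p (a⁻¹ * (B * τ * B⁻¹) * (a * a)) = ![sg 0, 2 * sg 0 * sg 0, sg 0] :=
    w_eq p _ _ (fun e => sg_ne 0 (congrFun e 0)) fun l => by
      simp only [act_mul, ha _, ha' _, hB _, hB' _, hτ _]
      fin_cases l
      · refine (ev_b.mul ev_eps).of_eq ?_ (by simp)
        simp [co, e00, e01, e02, e10, e11, e12, e20, e21, e22]
        ring
      · refine ((((((ev_nat 2).mul ev_b).mul ev_b).mul ev_eps).mul ev_eps).mul ev_eps).of_eq ?_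
          (by simp)
        simp [co, e00, e01, e02, e10, e11, e12, e20, e21, e22]
        linear_combination (2 * sg 0 * sg 0 * eps * eps * eps) * hti
      · refine ((ev_b.mul ev_eps).mul ev_eps).of_eq ?_ (by simp)
        simp [co, e00, e01, e02, e10, e11, e12, e20, e21, e22]
        ring
  have w41 : w p (a⁻¹ * (B * τ * B⁻¹) * (a * a)) 1 ≠ 0 := by
    rw [w4]
    have : (2 : R) ≠ 0 := by
      rw [AddMonoidAlgebra.ofNat_def, AddMonoidAlgebra.single_ne_zero]
      decide
    exact mul_ne_zero (mul_ne_zero this (sg_ne 0)) (sg_ne 0)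
  have k1 : B * τ * B⁻¹ ∈ H := H.mul_mem (H.mul_mem hBH hτH) (H.inv_mem hBH)
  have k2 : B⁻¹ * τ * B ∈ H := H.mul_mem (H.mul_mem (H.inv_mem hBH) hτH) hBH
  generalize B * τ * B⁻¹ = k at hrel w41 k1
  generalize B⁻¹ * τ * B = k' at hrel k2
  have h1 : (τ * τ) * a * k'⁻¹ * (a * a)⁻¹ * k⁻¹ * a = 1 := by
    rw [← inv_eq_one, ← hrel]
    simp only [mul_inv_rev, inv_inv, mul_assoc]
  have h2 := congrArg (fun g => (Ψ g (1, 0)).2) h1
  simp only [map_mul Ψ _ a, map_mul Ψ _ k⁻¹, map_mul Ψ _ (a * a)⁻¹, map_mul Ψ _ k'⁻¹,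
    Equiv.Perm.mul_apply, hΨ a (by simp), hΨ (a * a)⁻¹ (by simp), step_apply, (H.inv_mem k1).2,
    (H.inv_mem k2).2, (H.mul_mem hτH hτH).2, inv_inv, one_mul, map_one, Equiv.Perm.one_apply] at h2
  rw [dl_swap (w p (a⁻¹ * k * (a * a))), dl_left w41, w_stab p _ k2.1, dl_left w41, w1, w2] at h2
  simp [dl, sg_ne] at h2

end Pool.Agent.Lib.MP_179850_al
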