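import Pool.Agent.Lib.MP_179850_al.Main

/-! The automorphism group of the free metabelian group of rank four is not finitely presented. -/

set_option autoImplicit false

namespace Pool.Agent.Lib.MP_179850_al.RankFourOld

universe u

/-- Let `M` be a quotient of the free group `F` of rank four by `[[F, F], [F, F]]`. Then the
automorphism group of `M` is not finitely presented. -/
theorem result (M : Type u) [Group M] (π : FreeGroup (Fin 4) →* M) (hπ : Function.Surjective π)
    (hker : π.ker = ⁅commutator (FreeGroup (Fin 4)), commutator (FreeGroup (Fin 4))⁆) :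
    ¬ Group.IsFinitelyPresented (MulAut M) := by
  intro h
  have e1 : derivedSeries (FreeGroup (Fin 4)) 2 = π.ker := hker.symm
  let e : M ≃* (FreeGroup (Fin 4) ⧸ derivedSeries (FreeGroup (Fin 4)) 2) :=
    ((QuotientGroup.quotientMulEquivOfEq e1).trans
      (QuotientGroup.quotientKerEquivOfSurjective π hπ)).symm
  obtain ⟨m, f, hf, S, hS, hk⟩ := (Group.IsFinitelyPresented.equiv (MulAut.congr e)).out
  exact Pool.Agent.Lib.MP_179850_al.not_fp f hf hS.toFinset (by rw [hS.coe_toFinset, hk])

end Pool.Agent.Lib.MP_179850_al.RankFourOld
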