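import Mathlib

/-! A universal Groebner basis argument: initial modules have no `p`-torsion for almost all `p`,
uniformly in the weight. -/

set_option autoImplicit false

namespace Pool.Agent.Lib.MP_179850_al

open Finset Filter

/-- The reduction step of the division algorithm over the localization at `p`. -/
theorem reduce {Ω L : Type} [LinearOrder L] [WellFoundedLT L] (p : ℕ) (hp : p.Prime)
    (U : AddSubgroup (Ω →₀ ℤ)) (κ : Ω → L) (W : Ω → ℤ)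
    (hinj : ∀ u ∈ U, ∀ ν ∈ u.support, ∀ ν' ∈ u.support, κ ν = κ ν' → ν = ν')
    (Red : Ω → Prop)
    (hRed : ∀ ν, Red ν → ∃ g ∈ U, ¬ (p : ℤ) ∣ g ν ∧
      ∀ ν' ∈ g.support, ν' ≠ ν → κ ν' < κ ν ∧ W ν ≤ W ν')
    (hex : ∀ u ∈ U, u ≠ 0 → ∃ ν ∈ u.support, Red ν) (u : Ω →₀ ℤ) (hu : u ∈ U)
    (h0 : ∀ ν ∈ u.support, 0 ≤ W ν) (hd : ∀ ν, W ν = 0 → (p : ℤ) ∣ u ν) :
    ∃ u' ∈ U, (∀ ν ∈ u'.support, 0 ≤ W ν) ∧ ∀ ν, W ν = 0 → p * u' ν = u ν := by
  classical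
  have hpz : Prime (p : ℤ) := Nat.prime_iff_prime_int.mp hp
  have key : ∀ l : WithTop L, ∀ u ∈ U, (∀ ν ∈ u.support, Red ν → (κ ν : WithTop L) < l) →
      (∀ ν ∈ u.support, 0 ≤ W ν) → (∀ ν, W ν = 0 → (p : ℤ) ∣ u ν) →
      ∃ c : ℤ, ¬ (p : ℤ) ∣ c ∧ ∃ u' ∈ U, (∀ ν ∈ u'.support, 0 ≤ W ν) ∧
        ∀ ν, W ν = 0 → p * u' ν = c * u ν := by
    intro l
    induction l using WellFoundedLT.induction with
    | ind l ih =>
      intro u hu hl h0 hd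
      by_cases hu0 : u = 0
      · exact ⟨1, hpz.not_dvd_one, 0, U.zero_mem, by simp, by simp [hu0]⟩
      obtain ⟨ν, hν, hmax⟩ := exists_max_image (u.support.filter Red) κ
        (by obtain ⟨ν, h1, h2⟩ := hex u hu hu0; exact ⟨ν, mem_filter.2 ⟨h1, h2⟩⟩)
      obtain ⟨hν1, hν2⟩ := mem_filter.1 hν
      obtain ⟨g, hg, hgp, hgs⟩ := hRed ν hν2
      have hg0 : ∀ ν' ∈ g.support, W ν ≤ W ν' := fun ν' h => by
        by_cases e : ν' = ν
        · rw [e]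
        · exact (hgs ν' h e).2
      have hsupp : ∀ ν' ∈ (g ν • u - u ν • g).support,
          ν' ≠ ν ∧ (ν' ∈ u.support ∨ ν' ∈ g.support) := by
        intro ν' h
        rw [Finsupp.mem_support_iff] at h
        simp only [Finsupp.coe_sub, Finsupp.coe_smul, Pi.sub_apply, Pi.smul_apply,
          smul_eq_mul] at h
        refine ⟨fun e => h (by rw [e]; ring), ?_⟩
        by_contra hc
        simp only [not_or, Finsupp.mem_support_iff, not_not] at hc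
        exact h (by rw [hc.1, hc.2]; ring)
      have hdiv : ∀ ν', W ν' = 0 → (p : ℤ) ∣ u ν * g ν' := by
        intro ν' h
        by_cases e : ν' ∈ g.support
        · have h1 := hg0 ν' e
          have h2 := h0 ν hν1
          exact (hd ν (by omega)).mul_right _
        · rw [Finsupp.notMem_support_iff.1 e]; simp
      obtain ⟨c, hc, u', hu', h1, h2⟩ := ih (κ ν) (hl ν hν1 hν2) (g ν • u - u ν • g)
        (U.sub_mem (U.zsmul_mem hu _) (U.zsmul_mem hg _))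
        (fun ν' h hr => by
          obtain ⟨hne, h | h⟩ := hsupp ν' h
          · exact WithTop.coe_lt_coe.2 (lt_of_le_of_ne (hmax ν' (mem_filter.2 ⟨h, hr⟩))
              fun e => hne (hinj u hu ν' h ν hν1 e))
          · exact WithTop.coe_lt_coe.2 (hgs ν' h hne).1)
        (fun ν' h => by
          obtain ⟨-, h | h⟩ := hsupp ν' h
          · exact h0 ν' h
          · exact (h0 ν hν1).trans (hg0 ν' h))
        (fun ν' h => by
          simp only [Finsupp.coe_sub, Finsupp.coe_smul, Pi.sub_apply, Pi.smul_apply, smul_eq_mul]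
          exact dvd_sub ((hd ν' h).mul_left _) (hdiv ν' h))
      by_cases hW : W ν = 0
      · obtain ⟨e, he⟩ := hd ν hW
        refine ⟨c * g ν, fun h => (hpz.dvd_or_dvd h).elim hc hgp, u' + (c * e) • g,
          U.add_mem hu' (U.zsmul_mem hg _), fun ν' h => ?_, fun ν' h => ?_⟩
        · rcases mem_union.1 (Finsupp.support_add h) with h | h
          · exact h1 ν' h
          · exact (h0 ν hν1).trans (hg0 ν' (Finsupp.support_smul h))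
        · have := h2 ν' h
          simp only [Finsupp.coe_sub, Finsupp.coe_smul, Pi.sub_apply, Pi.smul_apply,
            smul_eq_mul, Finsupp.coe_add, Pi.add_apply] at this ⊢
          rw [he] at this
          linear_combination this
      · refine ⟨c * g ν, fun h => (hpz.dvd_or_dvd h).elim hc hgp, u', hu', h1, fun ν' h => ?_⟩
        have := h2 ν' h
        have h3 : g ν' = 0 := by
          by_contra e
          have h4 := hg0 ν' (Finsupp.mem_support_iff.2 e)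
          have h5 := h0 ν hν1
          omega
        simp only [Finsupp.coe_sub, Finsupp.coe_smul, Pi.sub_apply, Pi.smul_apply,
          smul_eq_mul, h3] at this
        linear_combination this
  obtain ⟨c, hc, u', hu', h1, h2⟩ := key ⊤ u hu (fun ν _ _ => WithTop.coe_lt_top _) h0 hd
  obtain ⟨s, t, hst⟩ := (hpz.irreducible.coprime_iff_not_dvd.2 hc)
  refine ⟨s • u + t • u', U.add_mem (U.zsmul_mem hu _) (U.zsmul_mem hu' _), fun ν h => ?_,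
    fun ν h => ?_⟩
  · rcases mem_union.1 (Finsupp.support_add h) with h | h
    · exact h0 ν (Finsupp.support_smul h)
    · exact h1 ν (Finsupp.support_smul h)
  · have := h2 ν h
    simp only [Finsupp.coe_smul, Pi.smul_apply, smul_eq_mul, Finsupp.coe_add, Pi.add_apply]
    linear_combination t * this + u ν * hst

/-- The lattice of exponents. -/
abbrev A : Type := Fin 4 → ℤ

/-- Monomials of the free module of rank three. -/
abbrev Om : Type := A × Fin 3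

/-- Dickson's lemma in a cone. -/
theorem dickson (τ : A →+ A) (Λ : Set Om) (hΛ : ∀ ν ∈ Λ, ∀ i, 0 ≤ τ ν.1 i)
    (hτ : Function.Injective τ) :
    ∃ Λ0 : Set Om, Λ0.Finite ∧ Λ0 ⊆ Λ ∧
      ∀ ν ∈ Λ, ∃ μ ∈ Λ0, μ.2 = ν.2 ∧ ∀ i, τ μ.1 i ≤ τ ν.1 i := by
  let f : Om → Fin 4 → ℕ := fun ν i => (τ ν.1 i).toNat
  let S : Fin 3 → Set (Fin 4 → ℕ) := fun j => f '' {ν | ν ∈ Λ ∧ ν.2 = j}
  have hS : ∀ j, (S j).IsPWO := fun j => Set.isPWO_of_wellQuasiOrderedLE _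
  have hfin : ∀ j, {x | Minimal (· ∈ S j) x}.Finite := fun j =>
    (setOfPred_minimal_antichain _).finite_of_partiallyWellOrderedOn
      ((hS j).mono fun x hx => hx.prop)
  refine ⟨{ν | ν ∈ Λ ∧ Minimal (· ∈ S ν.2) (f ν)}, ?_, fun ν h => h.1, fun ν h => ?_⟩
  · refine Set.Finite.of_finite_image (f := fun ν => (f ν, ν.2)) ?_ ?_
    · refine ((Set.finite_iUnion hfin).prod (Set.finite_univ (α := Fin 3))).subset ?_
      rintro _ ⟨ν, hν, rfl⟩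
      exact ⟨Set.mem_iUnion.2 ⟨ν.2, hν.2⟩, trivial⟩
    · rintro ν hν μ hμ e
      simp only [Prod.mk.injEq] at e
      refine Prod.ext (hτ (funext fun i => ?_)) e.2
      have h1 := congrFun e.1 i
      have h2 := hΛ ν hν.1 i
      have h3 := hΛ μ hμ.1 i
      simp only [f] at h1
      omega
  · obtain ⟨b, hb, hmin⟩ := (hS ν.2).exists_le_minimal (a := f ν) ⟨ν, ⟨h, rfl⟩, rfl⟩
    obtain ⟨μ, ⟨hμ, hμ2⟩, rfl⟩ := hmin.prop
    refine ⟨μ, ⟨hμ, by rw [hμ2]; exact hmin⟩, hμ2, fun i => ?_⟩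
    have h1 := hb i
    have h2 := hΛ ν h i
    have h3 := hΛ μ hμ i
    simp only [f] at h1
    omega

/-- The `p`-saturation property of the initial module at `u`. -/
def Sat (U : AddSubgroup (Om →₀ ℤ)) (p : ℕ) (ψ : A →+ ℤ) (n : Fin 3 → ℤ) (u : Om →₀ ℤ) : Prop :=
  (∀ ν ∈ u.support, n ν.2 ≤ ψ ν.1) → (∀ ν : Om, ψ ν.1 = n ν.2 → (p : ℤ) ∣ u ν) →
    ∃ u' ∈ U, (∀ ν ∈ u'.support, n ν.2 ≤ ψ ν.1) ∧ ∀ ν : Om, ψ ν.1 = n ν.2 → p * u' ν = u ν

/-- The term order refining a weight. -/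
def key (τ : A →+ A) (ψ : A →+ ℤ) (n : Fin 3 → ℤ) (ν : Om) :
    ℕ ×ₗ ℕ ×ₗ ℕ ×ₗ ℕ ×ₗ ℕ ×ₗ ℕ :=
  toLex ((n ν.2 - ψ ν.1 + (|n 0| + |n 1| + |n 2|)).toNat, toLex ((τ ν.1 0).toNat,
    toLex ((τ ν.1 1).toNat, toLex ((τ ν.1 2).toNat, toLex ((τ ν.1 3).toNat, ν.2.val)))))

theorem abs_bound (n : Fin 3 → ℤ) (j : Fin 3) : 0 ≤ n j + (|n 0| + |n 1| + |n 2|) := by
  have h0 := neg_abs_le (n 0)
  have h1 := neg_abs_le (n 1)
  have h2 := neg_abs_le (n 2)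
  have h3 := abs_nonneg (n 0)
  have h4 := abs_nonneg (n 1)
  have h5 := abs_nonneg (n 2)
  fin_cases j <;> simp only [Fin.zero_eta, Fin.mk_one, Fin.reduceFinMk] <;> omega

theorem key_inj {τ : A →+ A} (hτ : Function.Injective τ) (ψ : A →+ ℤ) (n : Fin 3 → ℤ) {ν μ : Om}
    (hν : ∀ i, 0 ≤ τ ν.1 i) (hμ : ∀ i, 0 ≤ τ μ.1 i) (e : key τ ψ n ν = key τ ψ n μ) : ν = μ := by
  simp only [key, toLex_inj, Prod.mk.injEq] at e
  obtain ⟨-, e0, e1, e2, e3, e4⟩ := e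
  refine Prod.ext (hτ (funext fun i => ?_)) (Fin.ext e4)
  have h0 := hν 0; have h1 := hν 1; have h2 := hν 2; have h3 := hν 3
  have g0 := hμ 0; have g1 := hμ 1; have g2 := hμ 2; have g3 := hμ 3
  fin_cases i <;> simp only [Fin.zero_eta, Fin.mk_one, Fin.reduceFinMk] <;> omega

theorem key_lt {τ : A →+ A} {ψ : A →+ ℤ} (hψ : ∀ a, (∀ i, 0 ≤ τ a i) → ψ a ≤ 0)
    (n : Fin 3 → ℤ) {ν μ : Om} (hν : ∀ i, 0 ≤ τ ν.1 i) (hμ : ∀ i, 0 ≤ τ μ.1 i) :
    key τ ψ n ν < key τ ψ n μ ↔ n ν.2 - ψ ν.1 < n μ.2 - ψ μ.1 ∨ n ν.2 - ψ ν.1 = n μ.2 - ψ μ.1 ∧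
      (τ ν.1 0 < τ μ.1 0 ∨ τ ν.1 0 = τ μ.1 0 ∧ (τ ν.1 1 < τ μ.1 1 ∨ τ ν.1 1 = τ μ.1 1 ∧
      (τ ν.1 2 < τ μ.1 2 ∨ τ ν.1 2 = τ μ.1 2 ∧ (τ ν.1 3 < τ μ.1 3 ∨ τ ν.1 3 = τ μ.1 3 ∧
        ν.2.val < μ.2.val)))) := by
  have l1 : ∀ x y : ℤ, 0 ≤ x → 0 ≤ y → (x.toNat < y.toNat ↔ x < y) := fun x y _ _ => by omega
  have l2 : ∀ x y : ℤ, 0 ≤ x → 0 ≤ y → (x.toNat = y.toNat ↔ x = y) := fun x y _ _ => by omega
  have b2 := hψ _ hν
  have b3 := hψ _ hμ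
  have c1 := abs_bound n ν.2
  have c2 := abs_bound n μ.2
  simp only [key, Prod.Lex.toLex_lt_toLex]
  rw [l1 _ _ (by omega) (by omega), l2 _ _ (by omega) (by omega), l1 _ _ (hν 0) (hμ 0),
    l2 _ _ (hν 0) (hμ 0), l1 _ _ (hν 1) (hμ 1), l2 _ _ (hν 1) (hμ 1), l1 _ _ (hν 2) (hμ 2),
    l2 _ _ (hν 2) (hμ 2), l1 _ _ (hν 3) (hμ 3), l2 _ _ (hν 3) (hμ 3), add_lt_add_iff_right,
    add_left_inj]

theorem key_shift {τ : A →+ A} {ψ : A →+ ℤ} (hψ : ∀ a, (∀ i, 0 ≤ τ a i) → ψ a ≤ 0)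
    (n : Fin 3 → ℤ) {ν μ : Om} {a : A} (ha : ∀ i, 0 ≤ τ a i)
    (hν : ∀ i, 0 ≤ τ ν.1 i) (hμ : ∀ i, 0 ≤ τ μ.1 i) (e : key τ ψ n ν < key τ ψ n μ) :
    key τ ψ n (a + ν.1, ν.2) < key τ ψ n (a + μ.1, μ.2) ∧
      ψ (a + μ.1) - n μ.2 ≤ ψ (a + ν.1) - n ν.2 := by
  have h1 : ∀ ν : Om, (∀ i, 0 ≤ τ ν.1 i) → ∀ i, 0 ≤ τ (a + ν.1, ν.2).1 i := fun ν h i => by
    simp only [map_add, Pi.add_apply]
    exact add_nonneg (ha i) (h i)
  rw [key_lt hψ n hν hμ] at e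
  rw [key_lt hψ n (h1 ν hν) (h1 μ hμ)]
  simp only [map_add, Pi.add_apply, add_lt_add_iff_left, add_right_inj]
  refine ⟨?_, by omega⟩
  rcases e with e | ⟨e, e'⟩
  · left; omega
  · right; exact ⟨by omega, e'⟩

theorem ugb_cone (U : AddSubgroup (Om →₀ ℤ))
    (hU : ∀ a : A, ∀ u ∈ U, ∃ u' ∈ U, ∀ b i, u' (a + b, i) = u (b, i))
    (τ : A →+ A) (hτ : Function.Injective τ) :
    ∀ᶠ p : ℕ in cofinite, p.Prime → ∀ ψ : A →+ ℤ, (∀ a, (∀ i, 0 ≤ τ a i) → ψ a ≤ 0) →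
      ∀ n : Fin 3 → ℤ, ∀ u ∈ U, (∀ ν ∈ u.support, ∀ i, 0 ≤ τ ν.1 i) → Sat U p ψ n u := by
  classical
  by_contra hcon
  rw [not_eventually, frequently_iff_neBot] at hcon
  obtain ⟨F, hF⟩ := Ultrafilter.exists_le (cofinite ⊓ 𝓟 {p : ℕ | ¬ (p.Prime → ∀ ψ : A →+ ℤ,
    (∀ a, (∀ i, 0 ≤ τ a i) → ψ a ≤ 0) →
      ∀ n : Fin 3 → ℤ, ∀ u ∈ U, (∀ ν ∈ u.support, ∀ i, 0 ≤ τ ν.1 i) → Sat U p ψ n u)})
  obtain ⟨hF1, hF2⟩ := le_inf_iff.1 hF
  rw [le_principal_iff] at hF2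
  have hch : ∀ p : ℕ, ∃ (ψ : A →+ ℤ) (n : Fin 3 → ℤ), ¬ (p.Prime → ∀ ψ : A →+ ℤ,
      (∀ a, (∀ i, 0 ≤ τ a i) → ψ a ≤ 0) →
      ∀ n : Fin 3 → ℤ, ∀ u ∈ U, (∀ ν ∈ u.support, ∀ i, 0 ≤ τ ν.1 i) → Sat U p ψ n u) →
      p.Prime ∧ (∀ a, (∀ i, 0 ≤ τ a i) → ψ a ≤ 0) ∧
        ∃ u ∈ U, (∀ ν ∈ u.support, ∀ i, 0 ≤ τ ν.1 i) ∧ ¬ Sat U p ψ n u := by
    intro p
    by_cases h : (p.Prime → ∀ ψ : A →+ ℤ, (∀ a, (∀ i, 0 ≤ τ a i) → ψ a ≤ 0) →
      ∀ n : Fin 3 → ℤ, ∀ u ∈ U, (∀ ν ∈ u.support, ∀ i, 0 ≤ τ ν.1 i) → Sat U p ψ n u)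
    · exact ⟨0, 0, fun h' => absurd h h'⟩
    · push Not at h
      obtain ⟨hp, ψ, h1, n, u, h2, h3, h4⟩ := h
      exact ⟨ψ, n, fun _ => ⟨hp, h1, u, h2, h3, h4⟩⟩
  choose ψ n hψ using hch
  let V : AddSubgroup (Om →₀ ℤ) :=
    { carrier := {u | u ∈ U ∧ ∀ ν ∈ u.support, ∀ i, 0 ≤ τ ν.1 i}
      zero_mem' := ⟨U.zero_mem, by simp⟩
      add_mem' := fun hu hv => ⟨U.add_mem hu.1 hv.1, fun ν h => by
        rcases mem_union.1 (Finsupp.support_add h) with h | h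
        exacts [hu.2 ν h, hv.2 ν h]⟩
      neg_mem' := fun hu => ⟨U.neg_mem hu.1, fun ν h => hu.2 ν (by simpa using h)⟩ }
  let Lead : ℕ → (Om →₀ ℤ) → Om → Prop := fun p v ν =>
    ∀ ν' ∈ v.support, key τ (ψ p) (n p) ν' ≤ key τ (ψ p) (n p) ν
  let Λ : Set Om := {ν | ∃ v ∈ V, ν ∈ v.support ∧ ∀ᶠ p in F, Lead p v ν}
  have hΛ : ∀ v ∈ V, v ≠ 0 → ∃ ν ∈ v.support, ν ∈ Λ := by
    intro v hv h0
    have h1 : ∀ᶠ p in F, ∃ ν ∈ (v.support : Set Om), Lead p v ν :=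
      Eventually.of_forall fun p => by
        obtain ⟨ν, h1, h2⟩ := exists_max_image v.support (key τ (ψ p) (n p))
          (Finsupp.support_nonempty_iff.2 h0)
        exact ⟨ν, h1, h2⟩
    obtain ⟨ν, h2, h3⟩ := (Ultrafilter.eventually_exists_mem_iff v.support.finite_toSet).1 h1
    exact ⟨ν, h2, v, hv, h2, h3⟩
  obtain ⟨Λ0, hfin, hsub, hmin⟩ := dickson τ Λ
    (fun ν ⟨v, hv, h, _⟩ => hv.2 ν h) hτ
  have hev : ∀ᶠ p in F, ∀ μ ∈ Λ0, ∃ v ∈ V, μ ∈ v.support ∧ Lead p v μ ∧ ¬ (p : ℤ) ∣ v μ := by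
    refine (eventually_all_finite hfin).2 fun μ hμ => ?_
    obtain ⟨v, hv, h1, h2⟩ := hsub hμ
    have h3 : ∀ᶠ p : ℕ in cofinite, ¬ (p : ℤ) ∣ v μ := by
      rw [Nat.cofinite_eq_atTop]
      filter_upwards [eventually_gt_atTop (v μ).natAbs] with p hp hd
      have := Nat.le_of_dvd (Int.natAbs_pos.2 (Finsupp.mem_support_iff.1 h1))
        (Int.natCast_dvd.1 hd)
      omega
    filter_upwards [h2, hF1 h3] with p h4 h5
    exact ⟨v, hv, h1, h4, h5⟩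
  obtain ⟨p, hp1, hp2⟩ := (hev.and hF2).exists
  obtain ⟨hp, hcone, u, hu, hus, hsat⟩ := hψ p hp2
  refine hsat fun h0 hd => ?_
  obtain ⟨u', hu', h1, h2⟩ := reduce p hp V (key τ (ψ p) (n p)) (fun ν => ψ p ν.1 - n p ν.2)
    (fun u hu ν h ν' h' e => key_inj hτ _ _ (hu.2 ν h) (hu.2 ν' h') e) (· ∈ Λ)
    (fun ν hν => by
      obtain ⟨μ, hμ, e, hle⟩ := hmin ν hν
      obtain ⟨v, hv, h1, h2, h3⟩ := hp1 μ hμ
      obtain ⟨g, hg, hg'⟩ := hU (ν.1 - μ.1) v hv.1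
      have ha : ∀ i, 0 ≤ τ (ν.1 - μ.1) i := fun i => by
        have := hle i
        simp only [map_sub, Pi.sub_apply]
        omega
      have hν' : ν = (ν.1 - μ.1 + μ.1, μ.2) := Prod.ext (by simp) e.symm
      have hs : ∀ ν' ∈ g.support, ∃ μ' ∈ v.support, ν' = (ν.1 - μ.1 + μ'.1, μ'.2) := by
        intro ν' h
        refine ⟨(ν'.1 - (ν.1 - μ.1), ν'.2), ?_, Prod.ext (by simp) rfl⟩
        rw [Finsupp.mem_support_iff, ← hg']
        simpa using h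
      refine ⟨g, ⟨hg, fun ν' h i => ?_⟩, ?_, fun ν' h hne => ?_⟩
      · obtain ⟨μ', h4, rfl⟩ := hs ν' h
        have h5 := hv.2 μ' h4 i
        have h6 := ha i
        simp only [map_add, Pi.add_apply]
        omega
      · rw [hν', hg']; exact h3
      · obtain ⟨μ', h4, rfl⟩ := hs ν' h
        have h5 : key τ (ψ p) (n p) μ' < key τ (ψ p) (n p) μ :=
          lt_of_le_of_ne (h2 μ' h4) fun e' => hne (by
            rw [key_inj hτ _ _ (hv.2 μ' h4) (hv.2 μ h1) e']; exact hν'.symm)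
        have h6 := key_shift hcone (n p) ha (hv.2 μ' h4) (hv.2 μ h1) h5
        rw [← hν'] at h6
        refine ⟨h6.1, ?_⟩
        have h7 := h6.2
        rw [sub_add_cancel, e] at h7
        exact h7)
    hΛ u ⟨hu, hus⟩ (fun ν h => by have := h0 ν h; omega) (fun ν h => hd ν (by omega))
  exact ⟨u', hu'.1, fun ν h => by have := h1 ν h; omega, fun ν h => h2 ν (by omega)⟩

/-- The sign change of coordinates. -/
def flip (ε : Fin 4 → Bool) : A →+ A where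
  toFun a i := if ε i then a i else -a i
  map_zero' := by ext i; simp
  map_add' a b := by
    ext i
    simp only [Pi.add_apply]
    split_ifs <;> ring

theorem flip_flip (ε : Fin 4 → Bool) (a : A) : flip ε (flip ε a) = a := by
  ext i
  simp only [flip, AddMonoidHom.coe_mk, ZeroHom.coe_mk]
  split_ifs <;> simp

theorem ugb (U : AddSubgroup (Om →₀ ℤ))
    (hU : ∀ a : A, ∀ u ∈ U, ∃ u' ∈ U, ∀ b i, u' (a + b, i) = u (b, i)) :
    ∀ᶠ p : ℕ in cofinite, p.Prime → ∀ (ψ : A →+ ℤ) (n : Fin 3 → ℤ), ∀ u ∈ U, Sat U p ψ n u := by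
  classical
  have h := eventually_all.2 fun ε : Fin 4 → Bool =>
    ugb_cone U hU (flip ε) (Function.LeftInverse.injective (flip_flip ε))
  filter_upwards [h] with p h hp ψ n u hu h0 hd
  let ε : Fin 4 → Bool := fun i => decide (ψ (Pi.single i 1) ≤ 0)
  have hψ : ∀ a, (∀ i, 0 ≤ flip ε a i) → ψ a ≤ 0 := by
    intro a ha
    have e : a = ∑ i, a i • Pi.single i (1 : ℤ) := by
      ext j; simp [Pi.single_apply]
    rw [e, map_sum]
    refine sum_nonpos fun i _ => ?_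
    have := ha i
    simp only [flip, AddMonoidHom.coe_mk, ZeroHom.coe_mk, ε, decide_eq_true_eq] at this
    rw [map_zsmul, smul_eq_mul]
    split_ifs at this with h1
    · exact mul_nonpos_of_nonneg_of_nonpos this h1
    · exact mul_nonpos_of_nonpos_of_nonneg (by omega) (by omega)
  let N : ℕ := u.support.sup fun ν => univ.sup fun i => (flip ε ν.1 i).natAbs
  let a : A := flip ε fun _ => N
  obtain ⟨v, hv, hv'⟩ := hU a u hu
  have hs : ∀ ν : Om, v ν = u (ν.1 - a, ν.2) := fun ν => by rw [← hv']; simp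
  obtain ⟨v', h1, h2, h3⟩ := h ε hp ψ hψ (fun j => n j + ψ a) v hv (fun ν hν i => by
      have h4 : (ν.1 - a, ν.2) ∈ u.support := by
        rw [Finsupp.mem_support_iff, ← hs]; exact Finsupp.mem_support_iff.1 hν
      have h5 : (flip ε (ν.1 - a) i).natAbs ≤ N :=
        (le_sup (f := fun i => (flip ε (ν.1 - a) i).natAbs) (mem_univ i)).trans
          (le_sup (f := fun ν : Om => univ.sup fun i => (flip ε ν.1 i).natAbs) h4)
      simp only [map_sub, Pi.sub_apply, a, flip_flip] at h5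
      omega)
    (fun ν hν => by
      have h4 := h0 (ν.1 - a, ν.2) (by
        rw [Finsupp.mem_support_iff, ← hs]; exact Finsupp.mem_support_iff.1 hν)
      simp only [map_sub] at h4 ⊢
      omega)
    (fun ν hν => by
      rw [hs]
      exact hd _ (by simp only [map_sub] at hν ⊢; omega))
  obtain ⟨u', hu', hu''⟩ := hU (-a) v' h1
  have hs' : ∀ ν : Om, u' ν = v' (ν.1 + a, ν.2) := fun ν => by rw [← hu'']; simp
  refine ⟨u', hu', fun ν hν => ?_, fun ν hν => ?_⟩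
  · have h4 := h2 (ν.1 + a, ν.2) (by
      rw [Finsupp.mem_support_iff, ← hs']; exact Finsupp.mem_support_iff.1 hν)
    simp only [map_add] at h4
    omega
  · rw [hs', h3 _ (by simp only [map_add]; omega), hs]
    simp

end Pool.Agent.Lib.MP_179850_al
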